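import Pool.Agent.X171.OC.Hom
import Pool.Agent.X171.SP.Sep

/-! Projective Banach lattices as retracts of the lattice of functions on a cube. -/

open Filter Topology

namespace Pool.Agent.X171.OC

open Pool.Agent.X171.BL (BanachLattice IsLatticeHom)
open Pool.Agent.X171.SP (ClosedIdeal OnePlusProjective smul_hom)

universe u v w

instance : BanachLattice ℝ where
  ordered := inferInstance
  smul := inferInstance
  solid := inferInstance
  complete := inferInstance

/-- the positive part of the unit ball -/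
abbrev Ball (X : Type u) [NormedAddCommGroup X] [Lattice X] : Type u := {a : X // 0 ≤ a ∧ ‖a‖ ≤ 1}

section

variable {X : Type u} [NormedAddCommGroup X] [Lattice X] [NormedSpace ℝ X] [BanachLattice X]

lemma exists_pre {q : P (Ball X) →L[ℝ] X} (hq : IsLatticeHom q)
    (hqd : ∀ a : Ball X, q (dl a) = a.1) (y : X) : ∃ x, q x = y ∧ ‖x‖ ≤ ‖y‖ := by
  have hpos : ∀ y : X, 0 ≤ y → ∃ x, q x = y ∧ ‖x‖ ≤ ‖y‖ := by
    intro y hy
    rcases eq_or_lt_of_le (norm_nonneg y) with h | h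
    · exact ⟨0, by rw [map_zero]; exact (norm_eq_zero.1 h.symm).symm, by simp⟩
    · let a : Ball X := ⟨‖y‖⁻¹ • y, smul_nonneg (inv_pos.2 h).le hy, by
        rw [norm_smul, norm_inv, norm_norm, inv_mul_cancel₀ h.ne']⟩
      refine ⟨‖y‖ • dl a, ?_, ?_⟩
      · rw [map_smul, hqd]
        show ‖y‖ • ‖y‖⁻¹ • y = y
        rw [smul_smul, mul_inv_cancel₀ h.ne', one_smul]
      · rw [norm_smul, norm_norm]
        exact mul_le_of_le_one_right (norm_nonneg y) (norm_dl_le a)
  obtain ⟨x1, h1, -⟩ := hpos (y ⊔ 0) le_sup_right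
  obtain ⟨x2, h2, -⟩ := hpos (-y ⊔ 0) le_sup_right
  obtain ⟨x0, h0, h0'⟩ := hpos |y| (abs_nonneg y)
  refine ⟨((x1 - x2) ⊓ |x0|) ⊔ -|x0|, ?_, ?_⟩
  · rw [hq.sup, hq.inf, map_sub, map_neg, hq.abs, h0, h1, h2, abs_abs]
    have h3 : y ⊔ 0 - (-y ⊔ 0) = y := posPart_sub_negPart y
    rw [h3, inf_eq_left.2 (le_abs_self y), sup_eq_left.2 (neg_le.1 (neg_le_abs y))]
  · rw [norm_abs_eq_norm] at h0'
    refine le_trans (Pool.Agent.X171.BL.norm_le_of_abs_le ?_) h0'
    rw [abs_le']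
    constructor
    · exact sup_le inf_le_right ((neg_nonpos.2 (abs_nonneg _)).trans (abs_nonneg _))
    · rw [neg_sup, neg_neg]
      exact inf_le_right

/-- A projective Banach lattice is a retract of the lattice of functions on a cube. -/
theorem exists_section (hX : OnePlusProjective.{u, u} X) :
    ∃ (q : P (Ball X) →L[ℝ] X) (i : X →L[ℝ] P (Ball X)), IsLatticeHom q ∧ IsLatticeHom i ∧
      (∀ x, q (i x) = x) ∧ ∀ a, q (dl a) = a.1 := by
  obtain ⟨q, hq, hqG, -⟩ := exists_hom (A := Ball X) (u := fun a : Ball X => a.1)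
    (fun a => a.2.1) (C := 1) (fun a => a.2.2) zero_le_one
  have hqd : ∀ a : Ball X, q (dl a) = a.1 := fun a =>
    Gp_unique (fun a : Ball X => a.2.1) (C := 1) (fun a => a.2.2) zero_le_one (hqG _)
      (subset_closure (Gen.pi a))
  choose r hr hr' using exists_pre hq hqd
  let J : ClosedIdeal (P (Ball X)) :=
    { LinearMap.ker q.toLinearMap with
      solid' := fun x y hx hxy => by
        have hx' : q x = 0 := hx
        show q y = 0
        have h1 : |q y| ≤ |q x| := by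
          rw [← hq.abs, ← hq.abs]
          exact hq.mono hxy
        have h2 := Pool.Agent.X171.BL.norm_le_of_abs_le h1
        rw [hx', norm_zero] at h2
        exact norm_le_zero_iff.1 h2
      closed' := q.isClosed_ker }
  have hJ : ∀ x, x ∈ J ↔ q x = 0 := fun x => Iff.rfl
  have hkey : ∀ w x, q w = x → J.proj (r x) = J.proj w := by
    intro w x h
    rw [J.mk_eq_iff, hJ, map_sub, hr, h, sub_self]
  let T : X →L[ℝ] J.Quo := LinearMap.mkContinuous
    { toFun := fun x => J.proj (r x)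
      map_add' := fun x y => by
        rw [hkey (r x + r y) _ (by rw [map_add, hr, hr]), map_add]
      map_smul' := fun c x => by
        rw [hkey (c • r x) _ (by rw [map_smul, hr]), map_smul]
        rfl } 1 fun x => by
          rw [one_mul]
          exact (J.norm_mk_le _).trans (hr' x)
  have hT : IsLatticeHom T := by
    refine ⟨fun x y => ?_, fun x y => ?_⟩
    · show J.proj (r (x ⊔ y)) = J.proj (r x) ⊔ J.proj (r y)
      rw [hkey (r x ⊔ r y) _ (by rw [hq.sup, hr, hr]), J.mk_sup']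
    · show J.proj (r (x ⊓ y)) = J.proj (r x) ⊓ J.proj (r y)
      rw [hkey (r x ⊓ r y) _ (by rw [hq.inf, hr, hr]), J.mk_inf']
  obtain ⟨S, hS, hS1, -⟩ := hX (P (Ball X)) J T hT 1 one_pos
  refine ⟨q, S, hq, hS, fun x => ?_, hqd⟩
  have h1 : J.proj (S x) = J.proj (r x) := hS1 x
  rw [J.mk_eq_iff, hJ, map_sub, hr, sub_eq_zero] at h1
  exact h1

/-- The retraction of the cube onto the fixed point set. -/
theorem exists_retract {q : P (Ball X) →L[ℝ] X} {i : X →L[ℝ] P (Ball X)} (hq : IsLatticeHom q)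
    (hi : IsLatticeHom i) (hqd : ∀ a : Ball X, q (dl a) = a.1) :
    ∃ (L : ℝ) (ρ : K (Ball X) → K (Ball X)), 0 < L ∧ ∀ w k, (i (q w)).1 k = L * w.1 (ρ k) := by
  have hL : 0 < ‖i‖ + 1 := by positivity
  have hle : ∀ (a : Ball X) (k : K (Ball X)), (i a.1).1 k ≤ ‖i‖ + 1 := by
    intro a k
    have h1 := le_nrm (i a.1) k
    rw [← norm_def] at h1
    have h2 := i.le_opNorm a.1
    have h3 : ‖i‖ * ‖a.1‖ ≤ ‖i‖ * 1 := mul_le_mul_of_nonneg_left a.2.2 (norm_nonneg i)
    linarith [le_abs_self ((i a.1).1 k)]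
  have hge : ∀ (a : Ball X) (k : K (Ball X)), 0 ≤ (i a.1).1 k := fun a k =>
    hi.nonneg a.2.1 k
  let ρ : K (Ball X) → K (Ball X) := fun k a => ⟨(i a.1).1 k / (‖i‖ + 1),
    div_nonneg (hge a k) hL.le, (div_le_one hL).2 (hle a k)⟩
  refine ⟨‖i‖ + 1, ρ, hL, fun w k => ?_⟩
  have h1 : IsLatticeHom ((‖i‖ + 1)⁻¹ • ((evl k).comp (i.comp q))) :=
    smul_hom ((evl_hom k).comp (hi.comp hq)) (inv_pos.2 hL).le
  have h2 : (‖i‖ + 1)⁻¹ • ((evl k).comp (i.comp q)) = evl (ρ k) := by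
    apply hom_ext h1 (evl_hom _)
    intro a
    show (‖i‖ + 1)⁻¹ • (i (q (dl a))).1 k = (i a.1).1 k / (‖i‖ + 1)
    rw [hqd, smul_eq_mul, div_eq_mul_inv, mul_comm]
  have h3 := congrArg (fun T : P (Ball X) →L[ℝ] ℝ => T w) h2
  have h4 : (‖i‖ + 1)⁻¹ * (i (q w)).1 k = w.1 (ρ k) := h3
  rw [← h4, ← mul_assoc, mul_inv_cancel₀ hL.ne', one_mul]

end

end Pool.Agent.X171.OC
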