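import Pool.Agent.X171.OC.Sec

/-! Bumps on the cube and the key lemma. -/

open Filter Topology

namespace Pool.Agent.X171.OC

open Pool.Agent.X171.BL (BanachLattice IsLatticeHom)
open Pool.Agent.X171.SP (ClosedIdeal OnePlusProjective smul_hom)

universe u v w

variable {A : Type w}

/-! ### Continuity and homogeneity -/

section
variable {Z : Type*} [AddCommGroup Z] [Lattice Z] [Module ℝ Z] {u : A → Z}

lemma Gen.cont {f : K A → ℝ} {x : Z} (h : Gen u f x) : Continuous f := by
  induction h with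
  | zero => exact continuous_const
  | pi a => exact continuous_subtype_val.comp (continuous_apply a)
  | add _ _ ih1 ih2 => exact ih1.add ih2
  | smul r _ ih => exact ih.const_smul r
  | sup _ _ ih1 ih2 => exact ih1.sup ih2

lemma Gen.lip {f : K A → ℝ} {x : Z} (h : Gen u f x) :
    ∃ (L : ℝ) (F : Finset A), 0 ≤ L ∧ ∀ k k' : K A, |f k - f k'| ≤
      L * ∑ a ∈ F, |(k a : ℝ) - k' a| := by
  classical
  have hmono : ∀ (F G : Finset A) (k k' : K A), F ⊆ G → ∑ a ∈ F, |(k a : ℝ) - k' a| ≤
      ∑ a ∈ G, |(k a : ℝ) - k' a| := fun F G k k' h =>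
    Finset.sum_le_sum_of_subset_of_nonneg h fun _ _ _ => abs_nonneg _
  have hcomb : ∀ (L L' : ℝ) (F G : Finset A) (k k' : K A), 0 ≤ L → 0 ≤ L' →
      L * (∑ a ∈ F, |(k a : ℝ) - k' a|) + L' * ∑ a ∈ G, |(k a : ℝ) - k' a| ≤
      (L + L') * ∑ a ∈ F ∪ G, |(k a : ℝ) - k' a| := by
    intro L L' F G k k' hL hL'
    rw [add_mul]
    exact add_le_add (mul_le_mul_of_nonneg_left (hmono _ _ _ _ Finset.subset_union_left) hL)
      (mul_le_mul_of_nonneg_left (hmono _ _ _ _ Finset.subset_union_right) hL')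
  induction h with
  | zero => exact ⟨0, ∅, le_rfl, fun k k' => by simp⟩
  | pi a => exact ⟨1, {a}, zero_le_one, fun k k' => by simp [pr]⟩
  | add _ _ ih1 ih2 =>
    obtain ⟨L, F, hL, h1⟩ := ih1
    obtain ⟨L', F', hL', h1'⟩ := ih2
    refine ⟨L + L', F ∪ F', add_nonneg hL hL', fun k k' => ?_⟩
    rw [Pi.add_apply, Pi.add_apply, add_sub_add_comm]
    exact (abs_add_le _ _).trans ((add_le_add (h1 k k') (h1' k k')).trans
      (hcomb _ _ _ _ _ _ hL hL'))
  | smul r _ ih =>
    obtain ⟨L, F, hL, h1⟩ := ih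
    refine ⟨|r| * L, F, by positivity, fun k k' => ?_⟩
    rw [Pi.smul_apply, Pi.smul_apply, smul_eq_mul, smul_eq_mul, ← mul_sub, abs_mul, mul_assoc]
    exact mul_le_mul_of_nonneg_left (h1 k k') (abs_nonneg r)
  | sup _ _ ih1 ih2 =>
    obtain ⟨L, F, hL, h1⟩ := ih1
    obtain ⟨L', F', hL', h1'⟩ := ih2
    refine ⟨L + L', F ∪ F', add_nonneg hL hL', fun k k' => ?_⟩
    rw [Pi.sup_apply, Pi.sup_apply]
    refine (abs_max_sub_max_le_max _ _ _ _).trans (le_trans ?_ (hcomb _ _ _ _ k k' hL hL'))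
    have h2 := h1 k k'
    have h3 := h1' k k'
    have h4 := (abs_nonneg _).trans h2
    have h5 := (abs_nonneg _).trans h3
    exact max_le (by linarith) (by linarith)

end

lemma cont (x : P A) : Continuous x.1 := by
  apply continuous_of_uniform_approx_of_continuous
  intro V hV
  obtain ⟨ε, hε, hεV⟩ := Metric.mem_uniformity_dist.1 hV
  obtain ⟨g, c, h1, h2, h3⟩ := x.2 ε hε
  refine ⟨g, h1.cont, fun k => hεV ?_⟩
  rw [Real.dist_eq]
  have := h2.le_norm k
  rw [Pi.sub_apply] at this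
  exact this.trans_lt h3

/-- scaling of a point of the cube -/
def sc (s : unitInterval) (k : K A) : K A := fun a => s * k a

lemma sc_ap (s : unitInterval) (k : K A) (a : A) : ((sc s k a : unitInterval) : ℝ) = s * k a :=
  rfl

lemma homog (x : P A) (s : unitInterval) (k : K A) : x.1 (sc s k) = s * x.1 k := by
  have h1 : IsLatticeHom ((s : ℝ) • evl k) := smul_hom (evl_hom k) s.2.1
  have h2 : (s : ℝ) • evl k = evl (sc s k) := by
    apply hom_ext h1 (evl_hom _)
    intro a
    rfl
  have h3 := congrArg (fun T : P A →L[ℝ] ℝ => T x) h2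
  exact h3.symm

/-- convex combinations of points of the cube -/
def mix (k l : K A) (τ : unitInterval) : K A := fun a => ⟨(1 - τ) * k a + τ * l a, by
  have h1 := τ.2.1
  have h2 := τ.2.2
  have h3 := (k a).2.1
  have h4 := (l a).2.1
  have h5 : 0 ≤ 1 - (τ : ℝ) := by linarith
  exact add_nonneg (mul_nonneg h5 h3) (mul_nonneg h1 h4), by
  have h1 := τ.2.1
  have h2 := τ.2.2
  have h3 := (k a).2.2
  have h4 := (l a).2.2
  have h5 : 0 ≤ 1 - (τ : ℝ) := by linarith
  have h6 : (1 - (τ : ℝ)) * k a ≤ (1 - (τ : ℝ)) * 1 := mul_le_mul_of_nonneg_left h3 h5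
  have h7 : (τ : ℝ) * l a ≤ (τ : ℝ) * 1 := mul_le_mul_of_nonneg_left h4 h1
  linarith⟩

lemma mix_ap (k l : K A) (τ : unitInterval) (a : A) :
    ((mix k l τ a : unitInterval) : ℝ) = (1 - τ) * k a + τ * l a := rfl

lemma mix_zero (k l : K A) : mix k l 0 = k := by
  funext a
  apply Subtype.ext
  rw [mix_ap]
  simp

lemma mix_one (k l : K A) : mix k l 1 = l := by
  funext a
  apply Subtype.ext
  rw [mix_ap]
  simp

lemma mix_cont (k l : K A) : Continuous (mix k l) := by
  apply continuous_pi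
  intro a
  apply Continuous.subtype_mk
  fun_prop

lemma ev_mix (k l : K A) (τ : unitInterval) (c : L1 A) :
    ev (mix k l τ) c = (1 - τ) * ev k c + τ * ev l c := by
  rw [ev_apply, ev_apply, ev_apply, ← tsum_mul_left, ← tsum_mul_left,
    ← ((summable_term c k).mul_left _).tsum_add ((summable_term c l).mul_left _)]
  congr 1
  funext a
  rw [mix_ap]
  ring

lemma ev_sc (s : unitInterval) (k : K A) (c : L1 A) : ev (sc s k) c = s * ev k c := by
  rw [ev_apply, ev_apply, ← tsum_mul_left]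
  congr 1
  funext a
  rw [sc_ap]
  ring

lemma ev_nonneg {c : L1 A} (hc : ∀ a, 0 ≤ c a) (k : K A) : 0 ≤ ev k c := by
  rw [ev_apply]
  exact tsum_nonneg fun a => mul_nonneg (hc a) (k a).2.1

open Classical in
lemma ev_single (k : K A) (a : A) (r : ℝ) : ev k (lp.single 1 a r) = r * k a := by
  rw [ev_apply, tsum_eq_single a]
  · rw [lp.single_apply, Pi.single_eq_same]
  · intro b hb
    rw [lp.single_apply, Pi.single_eq_of_ne hb, zero_mul]

open Classical in
/-- the function with nonnegative coefficients `c` -/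
lemma ev_mem {c : L1 A} (hc : ∀ a, 0 ≤ c a) : (fun k => ev k c) ∈ sub A := by
  intro ε hε
  have h1 : HasSum (fun a => lp.single 1 a (c a)) c := lp.hasSum_single (by norm_num) c
  obtain ⟨s, hs⟩ := (Metric.tendsto_nhds.1 h1 ε hε).exists
  rw [dist_eq_norm, ← norm_neg, neg_sub] at hs
  refine ⟨∑ a ∈ s, c a • pr a, c - ∑ a ∈ s, lp.single 1 a (c a), ?_, ⟨fun b => ?_, fun k => ?_⟩, hs⟩
  · exact Gen.sum (A := A) (X := ℝ) (u := fun _ => 0) s |>.genF
  · rw [lp.coeFn_sub, Pi.sub_apply, lp.coeFn_sum, Finset.sum_apply]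
    by_cases hb : b ∈ s
    · rw [Finset.sum_eq_single b]
      · rw [lp.single_apply, Pi.single_eq_same, sub_self]
      · intro a _ ha
        rw [lp.single_apply, Pi.single_eq_of_ne ha.symm]
      · intro h
        exact absurd hb h
    · rw [Finset.sum_eq_zero, sub_zero]
      · exact hc b
      · intro a ha
        rw [lp.single_apply, Pi.single_eq_of_ne]
        rintro rfl
        exact hb ha
  · have h2 : ((fun k => ev k c) - ∑ a ∈ s, c a • pr a) k =
        ev k (c - ∑ a ∈ s, lp.single 1 a (c a)) := by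
      rw [map_sub, map_sum, Pi.sub_apply, Finset.sum_apply]
      congr 1
      refine Finset.sum_congr rfl fun a _ => ?_
      rw [ev_single]
      rfl
    rw [h2, abs_of_nonneg]
    rw [map_sub, map_sum, sub_nonneg]
    have h3 : ∑ a ∈ s, ev k (lp.single 1 a (c a)) = ∑ a ∈ s, c a * (k a : ℝ) :=
      Finset.sum_congr rfl fun a _ => ev_single k a (c a)
    rw [h3, ev_apply]
    exact (summable_term c k).sum_le_tsum s fun a _ => mul_nonneg (hc a) (k a).2.1

end Pool.Agent.X171.OC
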