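import Pool.Agent.X171.OC.Geo

/-! Bumps on the cube and the key lemma. -/

open Filter Topology

namespace Pool.Agent.X171.OC

open Pool.Agent.X171.BL (BanachLattice IsLatticeHom)
open Pool.Agent.X171.SP (ClosedIdeal OnePlusProjective smul_hom)

universe u v w

variable {A : Type w}

lemma smul_val' (r : ℝ) (x : P A) (k : K A) : (r • x).1 k = r * x.1 k := rfl

lemma sum_ap {ι : Type*} (s : Finset ι) (f : ι → P A) (k : K A) :
    (∑ a ∈ s, f a).1 k = ∑ a ∈ s, (f a).1 k := map_sum (evl k) f s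

/-- A bump around `k₁`: wherever it is positive, `u` is positive on a path from `k₁`, up to
scaling. -/
theorem exists_bump (u : P A) (k₁ : K A) (hu : 0 < u.1 k₁) :
    ∃ b : P A, 0 ≤ b ∧ 0 < b.1 k₁ ∧ ∀ k, 0 < b.1 k → ∃ σ s : unitInterval, 0 < (σ : ℝ) ∧
      0 < (s : ℝ) ∧ ∀ τ : unitInterval, 0 < u.1 (mix (sc σ k₁) (sc s k) τ) := by
  classical
  set μ := u.1 k₁ with hμ
  obtain ⟨g, c, hg, hd, hc⟩ := u.2 (μ / 8) (by positivity)
  obtain ⟨L, F, hL, hlip⟩ := hg.lip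
  have hgm : g ∈ sub A := genF_mem hg
  have hgh : ∀ (s : unitInterval) (k : K A), g (sc s k) = s * g k := fun s k => homog ⟨g, hgm⟩ s k
  have hC : ∀ k, ev k c ≤ μ / 8 := fun k => (le_abs_self _).trans ((ev_le k c).trans hc.le)
  have hC0 : ∀ k, 0 ≤ ev k c := ev_nonneg hd.1
  have hug : ∀ k, |u.1 k - g k| ≤ ev k c := fun k => hd.2 k
  -- a coordinate which does not vanish at `k₁`
  obtain ⟨a₀, ha₀, hk₁⟩ : ∃ a ∈ F, 0 < (k₁ a : ℝ) := by
    by_contra hcon
    push Not at hcon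
    have h1 := hlip k₁ (sc 0 k₁)
    have h2 : ∑ a ∈ F, |(k₁ a : ℝ) - (sc 0 k₁ a : unitInterval)| = 0 := by
      apply Finset.sum_eq_zero
      intro a ha
      rw [sc_ap]
      have := le_antisymm (hcon a ha) (k₁ a).2.1
      rw [this]
      simp
    rw [h2, mul_zero, hgh] at h1
    have h3 := abs_nonpos_iff.1 h1
    have h4 := (abs_le.1 (hug k₁)).2
    have h5 := hC k₁
    have h6 : ((0 : unitInterval) : ℝ) = 0 := rfl
    rw [h6] at h3
    linarith
  let ω : P A := (k₁ a₀ : ℝ)⁻¹ • dl a₀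
  have hω : ∀ k, ω.1 k = (k₁ a₀ : ℝ)⁻¹ * k a₀ := fun k => rfl
  have hω1 : ω.1 k₁ = 1 := by rw [hω, inv_mul_cancel₀ hk₁.ne']
  let W : P A := ⟨_, ev_mem hd.1⟩
  have hW : ∀ k, W.1 k = ev k c := fun k => rfl
  set η := μ / 8 / (L + 1) with hη
  have hη0 : 0 < η := by positivity
  have hηL : L * η ≤ μ / 8 := by
    rw [hη]
    calc L * (μ / 8 / (L + 1)) = μ / 8 * (L / (L + 1)) := by ring
      _ ≤ μ / 8 * 1 := by
        gcongr
        rw [div_le_one (by positivity)]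
        linarith
      _ = μ / 8 := mul_one _
  let b1 : P A := η • ω - ∑ a ∈ F, |dl a - (k₁ a : ℝ) • ω|
  let b2 : P A := (μ / 4) • ω - W
  have hb1 : ∀ k, b1.1 k = η * ω.1 k - ∑ a ∈ F, |(k a : ℝ) - k₁ a * ω.1 k| := by
    intro k
    show η * ω.1 k - (∑ a ∈ F, |dl a - (k₁ a : ℝ) • ω|).1 k = _
    rw [sum_ap]
    rfl
  have hb2 : ∀ k, b2.1 k = (μ / 4) * ω.1 k - ev k c := fun k => rfl
  let b : P A := (b1 ⊔ 0) ⊓ (b2 ⊔ 0)
  have hb : ∀ k, b.1 k = min (max (b1.1 k) 0) (max (b2.1 k) 0) := fun k => rfl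
  refine ⟨b, le_inf le_sup_right le_sup_right, ?_, ?_⟩
  · rw [hb, hb1, hb2, hω1]
    have h1 : ∑ a ∈ F, |(k₁ a : ℝ) - k₁ a * 1| = 0 := by simp
    rw [h1]
    have := hC k₁
    refine lt_min (lt_max_of_lt_left (by linarith)) (lt_max_of_lt_left (by linarith))
  · intro k hk
    rw [hb] at hk
    have hk1 : 0 < b1.1 k := by
      have := (lt_min_iff.1 hk).1
      rcases lt_max_iff.1 this with h | h
      · exact h
      · exact absurd h (lt_irrefl _)
    have hk2 : 0 < b2.1 k := by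
      have := (lt_min_iff.1 hk).2
      rcases lt_max_iff.1 this with h | h
      · exact h
      · exact absurd h (lt_irrefl _)
    rw [hb1] at hk1
    rw [hb2] at hk2
    have hsum : 0 ≤ ∑ a ∈ F, |(k a : ℝ) - k₁ a * ω.1 k| := Finset.sum_nonneg fun _ _ => abs_nonneg _
    have hωk : 0 < ω.1 k := by
      by_contra hcon
      push Not at hcon
      nlinarith
    -- the scalings
    obtain ⟨σ, s, hσ, hs, hσs⟩ : ∃ σ s : unitInterval, 0 < (σ : ℝ) ∧ 0 < (s : ℝ) ∧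
        (σ : ℝ) = s * ω.1 k := by
      rcases le_total (ω.1 k) 1 with h | h
      · exact ⟨⟨ω.1 k, hωk.le, h⟩, 1, hωk, one_pos, by simp⟩
      · refine ⟨1, ⟨(ω.1 k)⁻¹, (inv_pos.2 hωk).le, inv_le_one_of_one_le₀ h⟩, one_pos,
          inv_pos.2 hωk, ?_⟩
        simp [inv_mul_cancel₀ hωk.ne']
    refine ⟨σ, s, hσ, hs, fun τ => ?_⟩
    set p := mix (sc σ k₁) (sc s k) τ with hp
    have hτ0 := τ.2.1
    have hτ1 := τ.2.2
    have h1 : ev p c = (1 - τ) * (σ * ev k₁ c) + τ * (s * ev k c) := by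
      rw [hp, ev_mix, ev_sc, ev_sc]
    have h2 : |g p - g (sc σ k₁)| ≤ L * (τ * (s * (η * ω.1 k))) := by
      refine (hlip p (sc σ k₁)).trans (mul_le_mul_of_nonneg_left ?_ hL)
      have h3 : ∀ a ∈ F, |(p a : ℝ) - (sc σ k₁ a : unitInterval)| =
          τ * (s * |(k a : ℝ) - k₁ a * ω.1 k|) := by
        intro a _
        rw [hp, mix_ap, sc_ap, sc_ap, hσs]
        have h4 : (1 - (τ : ℝ)) * (s * ω.1 k * k₁ a) + τ * (s * k a) - s * ω.1 k * k₁ a =
            τ * (s * (k a - k₁ a * ω.1 k)) := by ring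
        rw [h4, abs_mul, abs_mul, abs_of_nonneg hτ0, abs_of_nonneg hs.le]
      rw [Finset.sum_congr rfl h3, ← Finset.mul_sum, ← Finset.mul_sum]
      refine mul_le_mul_of_nonneg_left (mul_le_mul_of_nonneg_left ?_ hs.le) hτ0
      linarith
    have h5 : L * (τ * (s * (η * ω.1 k))) ≤ (μ / 8) * σ := by
      have h6 : L * (τ * (s * (η * ω.1 k))) = (L * η) * (τ * σ) := by rw [hσs]; ring
      rw [h6]
      have h7 : (τ : ℝ) * σ ≤ 1 * σ := mul_le_mul_of_nonneg_right hτ1 hσ.le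
      rw [one_mul] at h7
      exact mul_le_mul hηL h7 (mul_nonneg hτ0 hσ.le) (by positivity)
    have h8 : ev p c ≤ (3 * μ / 8) * σ := by
      rw [h1]
      have h9 : (s : ℝ) * ev k c ≤ (μ / 4) * σ := by
        rw [hσs]
        nlinarith
      have h10 : (σ : ℝ) * ev k₁ c ≤ (μ / 8) * σ := by
        have := mul_le_mul_of_nonneg_left (hC k₁) hσ.le
        linarith
      have h11 : (1 - (τ : ℝ)) * (σ * ev k₁ c) ≤ (1 - τ) * ((μ / 4) * σ) :=
        mul_le_mul_of_nonneg_left (h10.trans (by nlinarith)) (by linarith)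
      have h12 : (τ : ℝ) * (s * ev k c) ≤ τ * ((μ / 4) * σ) := mul_le_mul_of_nonneg_left h9 hτ0
      nlinarith
    have h13 := (abs_le.1 h2).1
    have h14 : g (sc σ k₁) = σ * g k₁ := hgh σ k₁
    have h15 := (abs_le.1 (hug k₁)).2
    have h16 := (abs_le.1 (hug p)).1
    have h17 := hC k₁
    have h18 : (7 * μ / 8) ≤ g k₁ := by linarith
    have h19 : (7 * μ / 8) * σ ≤ σ * g k₁ := by
      rw [mul_comm]
      exact mul_le_mul_of_nonneg_left h18 hσ.le
    have h20 : 0 < μ * σ := mul_pos hu hσ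
    nlinarith

section

variable {X : Type u} [NormedAddCommGroup X] [Lattice X] [NormedSpace ℝ X] [BanachLattice X]

lemma exists_pos_of_ne {x : P A} (hx : 0 ≤ x) (h : x ≠ 0) : ∃ k, 0 < x.1 k := by
  by_contra hcon
  push Not at hcon
  exact h (P_ext fun k => le_antisymm (hcon k) (hx k))

/-- **Key lemma.** -/
theorem exists_const {q : P A →L[ℝ] X} {i : X →L[ℝ] P A} (hq : IsLatticeHom q)
    (hi : IsLatticeHom i) (hqi : ∀ x, q (i x) = x) {L : ℝ} {ρ : K A → K A} (hL : 0 < L)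
    (hρ : ∀ w k, (i (q w)).1 k = L * w.1 (ρ k)) {x z z' : X} (hz' : 0 ≤ z') (hz'0 : z' ≠ 0)
    (hzz : z' ≤ z) (hzx : z ≤ x) {Y : Set X} (hY : ∀ y ∈ Y, 0 ≤ y ∧ y ≤ x)
    (H : ∀ y ∈ Y, ∀ α β : ℝ, 0 ≤ α → α < β → β ≤ 1 → ∃ t, α < t ∧ t < β ∧ ∃ n : ℕ,
      z ⊓ ((x - (n : ℝ) • |y - t • x|) ⊔ 0) = 0) :
    ∃ v, 0 ≤ v ∧ v ≠ 0 ∧ v ≤ z' ∧ ∀ y ∈ Y, ∃ t ∈ Set.Icc (0 : ℝ) 1, v ⊓ |y - t • x| = 0 := by
  have hinj : ∀ x, i x = 0 → x = 0 := by
    intro x hx
    rw [← hqi x, hx, map_zero]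
  have hρ' : ∀ x k, (i x).1 k = L * (i x).1 (ρ k) := by
    intro x k
    have := hρ (i x) k
    rwa [hqi] at this
  obtain ⟨k₀, hk₀⟩ := exists_pos_of_ne (hi.nonneg hz') (fun h => hz'0 (hinj _ h))
  set k₁ := ρ k₀ with hk₁
  have hu : 0 < (i z').1 k₁ := by
    rw [hρ' z' k₀] at hk₀
    exact (mul_pos_iff_of_pos_left hL).1 hk₀
  obtain ⟨b, hb0, hbk, hb⟩ := exists_bump (i z') k₁ hu
  have hqb : 0 ≤ q b := hq.nonneg hb0
  have hv : q b ⊓ z' = q (b ⊓ i z') := by rw [hq.inf, hqi]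
  have hxk₁ : 0 < (i x).1 k₁ := hu.trans_le (hi.mono (hzz.trans hzx) k₁)
  refine ⟨q b ⊓ z', le_inf hqb hz', fun h0 => ?_, inf_le_right, fun y hy => ?_⟩
  · have h1 := hρ (b ⊓ i z') k₀
    rw [← hv, h0, map_zero, zero_ap, inf_ap] at h1
    have h2 : 0 < min (b.1 (ρ k₀)) ((i z').1 (ρ k₀)) := lt_min hbk hu
    have h3 := mul_pos hL h2
    linarith
  · have hy0 : ∀ k, 0 ≤ (i y).1 k := fun k => hi.nonneg (hY y hy).1 k
    have hyx : ∀ k, (i y).1 k ≤ (i x).1 k := fun k => hi.mono (hY y hy).2 k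
    set t := (i y).1 k₁ / (i x).1 k₁ with ht
    have ht1 : (i y).1 k₁ = t * (i x).1 k₁ := by
      rw [ht, div_mul_cancel₀ _ hxk₁.ne']
    have ht0 : 0 ≤ t := div_nonneg (hy0 k₁) hxk₁.le
    have ht1' : t ≤ 1 := (div_le_one hxk₁).2 (hyx k₁)
    refine ⟨t, ⟨ht0, ht1'⟩, ?_⟩
    by_contra hne
    have habs : 0 ≤ |y - t • x| := abs_nonneg _
    obtain ⟨k, hk⟩ := exists_pos_of_ne (hi.nonneg (le_inf (le_inf hqb hz') habs))
      (fun h => hne (hinj _ h))
    rw [hi.inf, inf_ap, hv, hρ, hi.abs, abs_ap, map_sub, map_smul, sub_ap, smul_ap, inf_ap] at hk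
    obtain ⟨hk1, hk2⟩ := lt_min_iff.1 hk
    have hk3 : 0 < min (b.1 (ρ k)) ((i z').1 (ρ k)) := (mul_pos_iff_of_pos_left hL).1 hk1
    obtain ⟨hk4, hk5⟩ := lt_min_iff.1 hk3
    set k' := ρ k with hk'
    have hk6 : (i y).1 k' ≠ t * (i x).1 k' := by
      intro h
      have h1 := hρ' y k
      have h2 := hρ' x k
      rw [← hk'] at h1 h2
      rw [h1, h2, h] at hk2
      have h3 : L * (t * (i x).1 k') - t * (L * (i x).1 k') = 0 := by ring
      rw [h3, abs_zero] at hk2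
      exact lt_irrefl _ hk2
    have hxk' : 0 < (i x).1 k' := hk5.trans_le (hi.mono (hzz.trans hzx) k')
    set t' := (i y).1 k' / (i x).1 k' with ht'
    have ht2 : (i y).1 k' = t' * (i x).1 k' := by
      rw [ht', div_mul_cancel₀ _ hxk'.ne']
    have ht'0 : 0 ≤ t' := div_nonneg (hy0 k') hxk'.le
    have ht'1 : t' ≤ 1 := (div_le_one hxk').2 (hyx k')
    have htt : t ≠ t' := by
      rintro h
      exact hk6 (by rw [ht2, h])
    obtain ⟨σ, s, hσ, hs, hpath⟩ := hb k' hk4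
    obtain ⟨r, hr1, hr2, n, hn⟩ := H y hy (min t t') (max t t') (le_min ht0 ht'0)
      (by
        rcases lt_or_gt_of_ne htt with h | h
        · rw [min_eq_left h.le, max_eq_right h.le]; exact h
        · rw [min_eq_right h.le, max_eq_left h.le]; exact h) (max_le ht1' ht'1)
    -- the level `r` is attained on the path
    let h : unitInterval → ℝ := fun τ =>
      (i y).1 (mix (sc σ k₁) (sc s k') τ) - r * (i x).1 (mix (sc σ k₁) (sc s k') τ)
    have hcont : Continuous h :=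
      ((cont (i y)).comp (mix_cont _ _)).sub
        (continuous_const.mul ((cont (i x)).comp (mix_cont _ _)))
    have h0 : h 0 = σ * ((t - r) * (i x).1 k₁) := by
      simp only [h]
      rw [mix_zero, homog, homog, ht1]
      ring
    have h1 : h 1 = s * ((t' - r) * (i x).1 k') := by
      simp only [h]
      rw [mix_one, homog, homog, ht2]
      ring
    have hmem : (0 : ℝ) ∈ Set.range h := by
      rcases lt_or_gt_of_ne htt with hlt | hlt
      · rw [min_eq_left hlt.le] at hr1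
        rw [max_eq_right hlt.le] at hr2
        refine mem_range_of_exists_le_of_exists_ge hcont ⟨0, ?_⟩ ⟨1, ?_⟩
        · rw [h0]
          exact mul_nonpos_of_nonneg_of_nonpos hσ.le
            (mul_nonpos_of_nonpos_of_nonneg (by linarith) hxk₁.le)
        · rw [h1]
          exact mul_nonneg hs.le (mul_nonneg (by linarith) hxk'.le)
      · rw [min_eq_right hlt.le] at hr1
        rw [max_eq_left hlt.le] at hr2
        refine mem_range_of_exists_le_of_exists_ge hcont ⟨1, ?_⟩ ⟨0, ?_⟩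
        · rw [h1]
          exact mul_nonpos_of_nonneg_of_nonpos hs.le
            (mul_nonpos_of_nonpos_of_nonneg (by linarith) hxk'.le)
        · rw [h0]
          exact mul_nonneg hσ.le (mul_nonneg (by linarith) hxk₁.le)
    obtain ⟨τ, hτ⟩ := hmem
    set p := mix (sc σ k₁) (sc s k') τ with hp
    have hup : 0 < (i z').1 p := hpath τ
    have hzp : 0 < (i z).1 p := hup.trans_le (hi.mono hzz p)
    have hxp : 0 < (i x).1 p := hup.trans_le (hi.mono (hzz.trans hzx) p)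
    have hτ' : (i y).1 p - r * (i x).1 p = 0 := hτ
    have h2 := congrArg (fun w => (i w).1 p) hn
    simp only [hi.inf, hi.sup, map_sub, map_smul, hi.abs, map_zero, inf_ap, sup_ap, sub_ap,
      smul_ap, abs_ap, zero_ap] at h2
    rw [hτ', abs_zero, mul_zero, sub_zero, max_eq_left hxp.le] at h2
    have h3 := lt_min hzp hxp
    linarith

end

end Pool.Agent.X171.OC
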