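import Pool.Agent.X171.OC.Main

/-! Order continuous functionals on projective Banach lattices: the main theorem. -/

open Filter Topology

namespace Pool.Agent.X171.OC

open Pool.Agent.X171.BL (BanachLattice IsLatticeHom)

universe u v w

variable {X : Type u} [NormedAddCommGroup X] [Lattice X] [NormedSpace ℝ X] [BanachLattice X]
  {φ : X → ℝ}

/-- Levels with a thin bump. -/
theorem exists_level (h : OCF φ) {x : X} (y : X) (hx : 0 ≤ x) {α β δ : ℝ} (hαβ : α < β)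
    (hδ : 0 < δ) : ∃ t, α < t ∧ t < β ∧ ∃ n : ℕ, φ (bump x |y - t • x| n) ≤ δ := by
  by_contra hcon
  push Not at hcon
  obtain ⟨M, hM⟩ := exists_nat_gt (φ x / δ)
  rw [div_lt_iff₀ hδ] at hM
  obtain ⟨n, hn⟩ := exists_nat_ge (2 * (M + 1) / (β - α))
  have hβα : 0 < β - α := by linarith
  have hM1 : (0 : ℝ) < M + 1 := by positivity
  rw [div_le_iff₀ hβα] at hn
  let t : ℕ → ℝ := fun i => α + (β - α) * ((i + 1) / (M + 1))
  have ht : ∀ i < M, α < t i ∧ t i < β := by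
    intro i hi
    have h1 : (0 : ℝ) < ((i : ℝ) + 1) / (M + 1) := by positivity
    have h2 : ((i : ℝ) + 1) / (M + 1) < 1 := by
      rw [div_lt_one hM1]
      have : (i : ℝ) < M := by exact_mod_cast hi
      linarith
    constructor
    · simp only [t]
      nlinarith
    · simp only [t]
      nlinarith
  have hdist : ∀ i j, i ≠ j → 2 ≤ (n : ℝ) * |t i - t j| := by
    intro i j hij
    have h1 : t i - t j = (β - α) / (M + 1) * ((i : ℝ) - j) := by
      simp only [t]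
      field_simp
      ring
    have h2 : (1 : ℝ) ≤ |(i : ℝ) - j| := by
      have h3 : (1 : ℤ) ≤ |(i : ℤ) - j| := Int.one_le_abs (by omega)
      have h4 : ((1 : ℤ) : ℝ) ≤ ((|(i : ℤ) - j| : ℤ) : ℝ) := by exact_mod_cast h3
      simpa using h4
    rw [h1, abs_mul, abs_of_pos (div_pos hβα hM1)]
    calc (2 : ℝ) = 2 * (M + 1) / (M + 1) := by field_simp
      _ ≤ n * (β - α) / (M + 1) := by gcongr
      _ = n * ((β - α) / (M + 1) * 1) := by ring
      _ ≤ n * ((β - α) / (M + 1) * |(i : ℝ) - j|) := by gcongr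
  have hsum := sum_le_of_disj hx (a := fun i => bump x |y - t i • x| n)
    (fun i => bump_nonneg _ _ _) (fun i => bump_le hx (abs_nonneg _) n)
    (fun i j hij => disj_bump hx (hdist i j hij)) M
  have h1 := h.mono (Finset.sum_nonneg fun i _ => bump_nonneg _ _ _) hsum
  rw [h.sum _ fun i _ => bump_nonneg _ _ _] at h1
  have h2 : ∑ i ∈ Finset.range M, δ ≤ ∑ i ∈ Finset.range M, φ (bump x |y - t i • x| n) :=
    Finset.sum_le_sum fun i hi =>
      (hcon (t i) (ht i (Finset.mem_range.1 hi)).1 (ht i (Finset.mem_range.1 hi)).2 n).le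
  rw [Finset.sum_const, Finset.card_range, nsmul_eq_mul] at h2
  linarith

theorem exists_thin (h : OCF φ) {x : X} (y : X) (hx : 0 ≤ x) {α β δ : ℝ} (hαβ : α < β)
    (hδ : 0 < δ) : ∃ t, α < t ∧ t < β ∧ ∃ n : ℕ, ∀ N : ℝ, 0 ≤ N →
      φ (x ⊓ (N • bump x |y - t • x| n)) ≤ δ := by
  obtain ⟨t, h1, h2, n, hn⟩ := exists_level h y hx hαβ (half_pos hδ)
  refine ⟨t, h1, h2, 2 * n, fun N hN => ?_⟩
  have h3 := h.mono (le_inf hx (smul_nonneg hN (bump_nonneg _ _ _)))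
    (inf_le_two_bump (d := |y - t • x|) hx n hN)
  rw [h.smul _ _ zero_le_two (bump_nonneg _ _ _)] at h3
  linarith

lemma inf_sum_le {ι : Type*} {a : X} (ha : 0 ≤ a) {b : ι → X} (s : Finset ι)
    (hb : ∀ i, 0 ≤ b i) : a ⊓ ∑ i ∈ s, b i ≤ ∑ i ∈ s, a ⊓ b i := by
  classical
  induction s using Finset.induction_on with
  | empty => simp
  | insert j s hj ih =>
    rw [Finset.sum_insert hj, Finset.sum_insert hj]
    exact (inf_add_le' ha (hb j) (Finset.sum_nonneg fun i _ => hb i)).trans (by gcongr)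

/-- An element of positive mass which avoids a dense set of levels of each `e k`. -/
theorem exists_generic (h : OCF φ) {x : X} (hx : 0 ≤ x) (hφx : 0 < φ x) (e : ℕ → X) :
    ∃ z, 0 ≤ z ∧ z ≤ x ∧ 0 < φ z ∧ ∀ k, ∀ α β : ℝ, α < β → ∃ t, α < t ∧ t < β ∧ ∃ n : ℕ,
      z ⊓ bump x |e k - t • x| n = 0 := by
  obtain ⟨g, hg⟩ := exists_surjective_nat (ℕ × ℚ × ℚ)
  have hex : ∀ m : ℕ, ∃ u : X, 0 ≤ u ∧
      (∀ N : ℝ, 0 ≤ N → φ (x ⊓ (N • u)) ≤ (φ x / 4) * (1 / 2) ^ m) ∧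
      (((g m).2.1 : ℝ) < (g m).2.2 → ∃ t, ((g m).2.1 : ℝ) < t ∧ t < (g m).2.2 ∧ ∃ n : ℕ,
        u = bump x |e (g m).1 - t • x| n) := by
    intro m
    by_cases hlt : ((g m).2.1 : ℝ) < (g m).2.2
    · obtain ⟨t, h1, h2, n, hn⟩ := exists_thin h (e (g m).1) hx hlt
        (δ := (φ x / 4) * (1 / 2) ^ m) (by positivity)
      exact ⟨_, bump_nonneg _ _ _, hn, fun _ => ⟨t, h1, h2, n, rfl⟩⟩
    · refine ⟨0, le_rfl, fun N hN => ?_, fun hlt' => absurd hlt' hlt⟩
      rw [smul_zero, inf_eq_right.2 hx, h.zero]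
      positivity
  choose u hu0 huφ hut using hex
  let s : ℕ → X := fun N => bump x (∑ m ∈ Finset.range N, u m) N
  have hs0 : ∀ N, 0 ≤ s N := fun N => bump_nonneg _ _ _
  have hU0 : ∀ N, 0 ≤ ∑ m ∈ Finset.range N, u m := fun N => Finset.sum_nonneg fun m _ => hu0 m
  have hUmono : ∀ N N', N ≤ N' → ∑ m ∈ Finset.range N, u m ≤ ∑ m ∈ Finset.range N', u m :=
    fun N N' hNN => Finset.sum_le_sum_of_subset_of_nonneg (Finset.range_mono hNN)
      fun m _ _ => hu0 m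
  have hsanti : ∀ N N', N ≤ N' → s N' ≤ s N := fun N N' hNN =>
    bump_mono (hU0 N) (hUmono N N' hNN) hNN
  have hsφ : ∀ N, φ x / 2 ≤ φ (s N) := by
    intro N
    have h1 : s N = x - x ⊓ ((N : ℝ) • ∑ m ∈ Finset.range N, u m) := by
      rw [sub_inf_eq]
      rfl
    rw [h1, h.sub (le_inf hx (smul_nonneg (Nat.cast_nonneg N) (hU0 N))) inf_le_left,
      Finset.smul_sum]
    have h2 := h.mono (le_inf hx (Finset.sum_nonneg fun m _ => smul_nonneg (Nat.cast_nonneg N)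
      (hu0 m))) (inf_sum_le (a := x) (b := fun m => (N : ℝ) • u m) hx (Finset.range N)
      fun m => smul_nonneg (Nat.cast_nonneg N) (hu0 m))
    rw [h.sum _ fun m _ => le_inf hx (smul_nonneg (Nat.cast_nonneg N) (hu0 m))] at h2
    have h3 : ∑ m ∈ Finset.range N, φ (x ⊓ ((N : ℝ) • u m)) ≤
        ∑ m ∈ Finset.range N, (φ x / 4) * (1 / 2) ^ m :=
      Finset.sum_le_sum fun m _ => huφ m N (Nat.cast_nonneg N)
    rw [← Finset.mul_sum] at h3
    have h4 : ∑ m ∈ Finset.range N, (1 / 2 : ℝ) ^ m ≤ 2 := by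
      have h5 := summable_geometric_two.sum_le_tsum (Finset.range N) fun m _ => by positivity
      rw [tsum_geometric_two] at h5
      exact h5
    have h5 : φ x / 4 * ∑ m ∈ Finset.range N, (1 / 2 : ℝ) ^ m ≤ φ x / 4 * 2 := by gcongr
    linarith
  obtain ⟨z, hz0, hzs, hz⟩ := h.exists_lower (S := Set.range s) ⟨_, 0, rfl⟩ (by
    rintro _ ⟨N, rfl⟩ _ ⟨N', rfl⟩
    exact ⟨_, ⟨max N N', rfl⟩, hsanti _ _ (le_max_left _ _), hsanti _ _ (le_max_right _ _)⟩) (by
    rintro _ ⟨N, rfl⟩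
    exact hs0 N) (half_pos hφx) (by
    rintro _ ⟨N, rfl⟩
    exact hsφ N)
  refine ⟨z, hz0, ?_, hz, fun k α β hαβ => ?_⟩
  · have := hzs _ ⟨0, rfl⟩
    simp only [s] at this
    rwa [bump_zero hx] at this
  · obtain ⟨a, ha1, ha2⟩ := exists_rat_btwn hαβ
    obtain ⟨b, hb1, hb2⟩ := exists_rat_btwn ha2
    obtain ⟨m, hm⟩ := hg (k, a, b)
    obtain ⟨t, ht1, ht2, n, hn⟩ := hut m (by rw [hm]; exact hb1)
    rw [hm] at ht1 ht2 hn
    refine ⟨t, ha1.trans ht1, ht2.trans hb2, n, ?_⟩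
    have hn' : bump x |e k - t • x| n = u m := hn.symm
    rw [hn']
    refine eq_zero_of_le_bump hx (le_inf hz0 (hu0 m)) inf_le_right fun N => ?_
    refine inf_le_left.trans ((hzs _ ⟨max N (m + 1), rfl⟩).trans ?_)
    refine bump_mono (hu0 m) ?_ (le_max_left _ _)
    exact Finset.single_le_sum (f := u) (fun i _ => hu0 i)
      (Finset.mem_range.2 (lt_of_lt_of_le (Nat.lt_succ_self m) (le_max_right _ _)))

variable {A : Type w}

/-- The main theorem for positive functionals. -/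
theorem phi_eq_zero {q : P A →L[ℝ] X} {i : X →L[ℝ] P A} (hq : IsLatticeHom q)
    (hi : IsLatticeHom i) (hqi : ∀ x, q (i x) = x) {L : ℝ} {ρ : K A → K A} (hL : 0 < L)
    (hρ : ∀ w k, (i (q w)).1 k = L * w.1 (ρ k)) (h : OCF φ)
    (hat : ∀ a : X, IsLatticeAtom a → φ a = 0) {x : X} (hx : 0 ≤ x) : φ x = 0 := by
  classical
  by_contra hne
  have hφx : 0 < φ x := lt_of_le_of_ne (h.nonneg x hx) (Ne.symm hne)
  have hε : ∀ m : ℕ, (0 : ℝ) < 1 / ((m : ℝ) + 1) := fun m => by positivity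
  choose F hF using fun m : ℕ => exists_finset h hat hx (hε m)
  let Y : Set X := ⋃ m, ((fun y : Set.Icc (0 : X) x => (y : X)) '' (F m : Set (Set.Icc (0 : X) x)))
  have hYc : Y.Countable := Set.countable_iUnion fun m => ((F m).finite_toSet.image _).countable
  have hY : ∀ y ∈ Y, 0 ≤ y ∧ y ≤ x := by
    intro y hy
    obtain ⟨m, y', -, rfl⟩ := Set.mem_iUnion.1 hy
    exact ⟨y'.2.1, y'.2.2⟩
  obtain ⟨e, he⟩ := (hYc.insert 0).exists_eq_range (Set.insert_nonempty 0 Y)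
  obtain ⟨z, hz0, hzx, hz, hgen⟩ := exists_generic h hx hφx e
  have H : ∀ y ∈ Y, ∀ α β : ℝ, 0 ≤ α → α < β → β ≤ 1 → ∃ t, α < t ∧ t < β ∧ ∃ n : ℕ,
      z ⊓ ((x - (n : ℝ) • |y - t • x|) ⊔ 0) = 0 := by
    intro y hy α β _ hαβ _
    have h1 : y ∈ Set.range e := he ▸ Set.mem_insert_of_mem _ hy
    obtain ⟨k, rfl⟩ := h1
    exact hgen k α β hαβ
  -- small elements of mass zero
  have hsmall : ∀ z', 0 ≤ z' → z' ≠ 0 → z' ≤ z → ∃ v, 0 ≤ v ∧ v ≠ 0 ∧ v ≤ z' ∧ φ v = 0 := by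
    intro z' hz'0 hz'ne hz'z
    obtain ⟨v, hv0, hvne, hvz, hv⟩ := exists_const hq hi hqi hL hρ hz'0 hz'ne hz'z hzx hY H
    refine ⟨v, hv0, hvne, hvz, ?_⟩
    choose! t ht htv using hv
    have hvx : v ≤ x := hvz.trans (hz'z.trans hzx)
    let T : Set.Icc (0 : X) x → unitInterval := fun y =>
      if hy : (y : X) ∈ Y then ⟨t y, ht y hy⟩ else 0
    refine le_antisymm (le_of_forall_pos_lt_add fun ε hε => ?_) (h.nonneg v hv0)
    obtain ⟨m, hm⟩ := exists_nat_one_div_lt hε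
    obtain ⟨n, hn⟩ := hF m T
    have hd : v ⊓ dev x (F m) T = 0 := by
      refine disj_sum hv0 _ (fun y _ => abs_nonneg _) fun y hy => ?_
      have hyY : (y : X) ∈ Y := Set.mem_iUnion.2 ⟨m, y, hy, rfl⟩
      have hT : (T y : ℝ) = t y := by
        simp only [T]
        rw [dif_pos hyY]
      rw [hT]
      exact htv y hyY
    have h1 : v ≤ bump x (dev x (F m) T) n := by
      have h2 := disj_smul hv0 (dev_nonneg _ _ _) hd (Nat.cast_nonneg n)
      have h3 : v = (v - (n : ℝ) • dev x (F m) T) ⊔ 0 := by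
        rw [← sub_inf_eq, h2, sub_zero]
      rw [h3]
      exact sup_le_sup_right (sub_le_sub_right hvx _) 0
    have h2 := h.mono hv0 h1
    linarith
  -- exhaustion
  obtain ⟨z', hz'0, hz's, hz'⟩ := h.exists_lower
    (S := {s | ∃ v, 0 ≤ v ∧ v ≤ z ∧ φ v = 0 ∧ s = z - v})
    ⟨_, 0, le_rfl, hz0, h.zero, rfl⟩ (by
      rintro _ ⟨v, hv0, hvz, hv, rfl⟩ _ ⟨v', hv0', hvz', hv', rfl⟩
      refine ⟨_, ⟨v ⊔ v', le_sup_of_le_left hv0, sup_le hvz hvz', ?_, rfl⟩, ?_, ?_⟩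
      · refine le_antisymm ?_ (h.nonneg _ (le_sup_of_le_left hv0))
        have h1 := h.mono (le_sup_of_le_left hv0) (show v ⊔ v' ≤ v + v' from
          sup_le (le_add_of_nonneg_right hv0') (le_add_of_nonneg_left hv0))
        rw [h.add _ _ hv0 hv0', hv, hv', add_zero] at h1
        exact h1
      · exact sub_le_sub_left le_sup_left z
      · exact sub_le_sub_left le_sup_right z) (by
      rintro _ ⟨v, hv0, hvz, hv, rfl⟩
      exact sub_nonneg.2 hvz) hz (by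
      rintro _ ⟨v, hv0, hvz, hv, rfl⟩
      rw [h.sub hv0 hvz, hv, sub_zero])
  have hz'z : z' ≤ z := by
    have := hz's _ ⟨0, le_rfl, hz0, h.zero, rfl⟩
    rwa [sub_zero] at this
  have hz'ne : z' ≠ 0 := by
    rintro rfl
    rw [h.zero] at hz'
    exact lt_irrefl _ hz'
  obtain ⟨v, hv0, hvne, hvz, hv⟩ := hsmall z' hz'0 hz'ne hz'z
  refine hvne (arch (x := z) hv0 fun n => ?_)
  induction n with
  | zero => rw [Nat.cast_zero, zero_smul]; exact hz0
  | succ n ih =>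
    have h1 := hz's _ ⟨(n : ℝ) • v, smul_nonneg (Nat.cast_nonneg n) hv0, ih, by
      rw [h.smul _ _ (Nat.cast_nonneg n) hv0, hv, mul_zero], rfl⟩
    have h2 := hvz.trans h1
    rw [Nat.cast_succ, add_smul, one_smul, add_comm, ← le_sub_iff_add_le]
    exact h2

end Pool.Agent.X171.OC
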