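import Pool.Agent.X171.OC.Phi

/-! Order continuous functionals on Banach lattices. -/

open Filter Topology

namespace Pool.Agent.X171.OC

open Pool.Agent.X171.BL (BanachLattice IsLatticeHom)

universe u v w

/-- Order continuous functionals: `f (x i) → 0` for every decreasing net `x` with infimum `0`. -/
def OrderContinuous {X : Type u} [NormedAddCommGroup X] [Lattice X] [NormedSpace ℝ X]
    (f : X →L[ℝ] ℝ) : Prop :=
  ∀ (ι : Type u) [Preorder ι] [IsDirectedOrder ι] [Nonempty ι] (x : ι → X), Antitone x →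
    IsGLB (Set.range x) 0 → Tendsto (fun i => f (x i)) atTop (𝓝 0)

/-- Atoms of a Banach lattice. -/
def IsLatticeAtom {X : Type u} [NormedAddCommGroup X] [Lattice X] [NormedSpace ℝ X] (a : X) :
    Prop :=
  0 < a ∧ ∀ x, 0 ≤ x → x ≤ a → ∃ c : ℝ, 0 ≤ c ∧ x = c • a

variable {X : Type u} [NormedAddCommGroup X] [Lattice X] [NormedSpace ℝ X] [BanachLattice X]

/-- positive order continuous functionals, on the positive cone -/
structure OCF (φ : X → ℝ) : Prop where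
  nonneg : ∀ x, 0 ≤ x → 0 ≤ φ x
  add : ∀ x y, 0 ≤ x → 0 ≤ y → φ (x + y) = φ x + φ y
  smul : ∀ (r : ℝ) x, 0 ≤ r → 0 ≤ x → φ (r • x) = r * φ x
  oc : ∀ S : Set X, S.Nonempty → DirectedOn (· ≥ ·) S → (∀ s ∈ S, 0 ≤ s) →
    (∀ w, 0 ≤ w → (∀ s ∈ S, w ≤ s) → w = 0) → ∀ ε : ℝ, 0 < ε → ∃ s ∈ S, φ s < ε

/-- the positive part of a functional -/
noncomputable def fp (f : X →L[ℝ] ℝ) (x : X) : ℝ := sSup (f '' Set.Icc 0 x)

section
variable {f : X →L[ℝ] ℝ}

lemma bdd_fp {x : X} : BddAbove (f '' Set.Icc 0 x) := by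
  refine ⟨‖f‖ * ‖x‖, ?_⟩
  rintro _ ⟨y, hy, rfl⟩
  refine (le_abs_self _).trans ((f.le_opNorm y).trans ?_)
  exact mul_le_mul_of_nonneg_left (Pool.Agent.X171.BL.norm_le_of_le hy.1 hy.2) (norm_nonneg f)

lemma le_fp {x y : X} (h0 : 0 ≤ y) (h : y ≤ x) : f y ≤ fp f x :=
  le_csSup bdd_fp ⟨y, ⟨h0, h⟩, rfl⟩

lemma fp_nonneg {x : X} (hx : 0 ≤ x) : 0 ≤ fp f x := by
  have := le_fp (f := f) le_rfl hx
  rwa [map_zero] at this

lemma fp_le {x : X} (hx : 0 ≤ x) {c : ℝ} (h : ∀ y, 0 ≤ y → y ≤ x → f y ≤ c) : fp f x ≤ c := by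
  refine csSup_le ⟨f 0, 0, ⟨le_rfl, hx⟩, rfl⟩ ?_
  rintro _ ⟨y, hy, rfl⟩
  exact h y hy.1 hy.2

lemma fp_add {x y : X} (hx : 0 ≤ x) (hy : 0 ≤ y) : fp f (x + y) = fp f x + fp f y := by
  apply le_antisymm
  · refine fp_le (add_nonneg hx hy) fun z hz hzx => ?_
    have h1 : f z = f (z ⊓ x) + f (z - z ⊓ x) := by
      rw [← map_add, add_sub_cancel]
    rw [h1]
    refine add_le_add (le_fp (le_inf hz hx) inf_le_right) (le_fp ?_ ?_)
    · exact sub_nonneg.2 inf_le_left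
    · rw [sub_inf_eq]
      refine sup_le ?_ hy
      rw [sub_le_iff_le_add, add_comm]
      exact hzx
  · rw [← le_sub_iff_add_le]
    refine fp_le hx fun a ha hax => ?_
    rw [le_sub_iff_add_le, ← le_sub_iff_add_le']
    refine fp_le hy fun b hb hby => ?_
    rw [le_sub_iff_add_le', ← map_add]
    exact le_fp (add_nonneg ha hb) (add_le_add hax hby)

lemma fp_smul_le {x : X} (hx : 0 ≤ x) {r : ℝ} (hr : 0 < r) : r * fp f x ≤ fp f (r • x) := by
  rw [← le_div_iff₀' hr]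
  refine fp_le hx fun y hy hyx => ?_
  rw [le_div_iff₀' hr, ← smul_eq_mul, ← map_smul]
  exact le_fp (smul_nonneg hr.le hy) (smul_le_smul_of_nonneg_left hyx hr.le)

lemma fp_zero : fp f (0 : X) = 0 := by
  refine le_antisymm (fp_le le_rfl fun y hy hy' => ?_) (fp_nonneg le_rfl)
  rw [le_antisymm hy' hy, map_zero]

lemma fp_smul {x : X} (hx : 0 ≤ x) {r : ℝ} (hr : 0 ≤ r) : fp f (r • x) = r * fp f x := by
  rcases eq_or_lt_of_le hr with h | h
  · rw [← h, zero_smul, zero_mul, fp_zero]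
  · apply le_antisymm
    · have h1 := fp_smul_le (f := f) (smul_nonneg hr hx) (inv_pos.2 h)
      rw [smul_smul, inv_mul_cancel₀ h.ne', one_smul, inv_mul_le_iff₀ h] at h1
      exact h1
    · exact fp_smul_le hx h

theorem ocf_fp (hf : OrderContinuous f) : OCF (fp f) where
  nonneg := fun x hx => fp_nonneg hx
  add := fun x y hx hy => fp_add hx hy
  smul := fun r x hr hx => fp_smul hx hr
  oc := by
    intro S hS hdir hS0 hglb ε hε
    obtain ⟨x, hx⟩ := hS
    have hx0 := hS0 x hx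
    have hlt : fp f x - ε / 2 < sSup (f '' Set.Icc 0 x) := by
      show fp f x - ε / 2 < fp f x
      linarith
    have hne : (f '' Set.Icc 0 x).Nonempty := ⟨f 0, 0, ⟨le_rfl, hx0⟩, rfl⟩
    obtain ⟨_, ⟨y, hy, rfl⟩, hy'⟩ := exists_lt_of_lt_csSup hne hlt
    -- the net
    let ι := (↥S)ᵒᵈ
    have : Nonempty ι := ⟨OrderDual.toDual ⟨x, hx⟩⟩
    have : IsDirectedOrder ι := by
      refine ⟨fun a b => ?_⟩
      obtain ⟨c, hc, h1, h2⟩ := hdir a.1 a.2 b.1 b.2
      exact ⟨OrderDual.toDual ⟨c, hc⟩, h1, h2⟩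
    let n : ι → X := fun s => y ⊓ s.1
    have hanti : Antitone n := by
      intro a b hab
      exact inf_le_inf_left y hab
    have hgl : IsGLB (Set.range n) 0 := by
      constructor
      · rintro _ ⟨s, rfl⟩
        exact le_inf hy.1 (hS0 _ s.2)
      · intro w hw
        have h1 : w ⊔ 0 = 0 := by
          refine hglb _ le_sup_right fun s hs => sup_le ?_ (hS0 s hs)
          exact (hw ⟨OrderDual.toDual ⟨s, hs⟩, rfl⟩).trans inf_le_right
        exact le_sup_left.trans h1.le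
    have ht := hf ι n hanti hgl
    have hev := (Metric.tendsto_nhds.1 ht (ε / 2) (by positivity)).and
      (eventually_ge_atTop (OrderDual.toDual (⟨x, hx⟩ : ↥S) : ι))
    obtain ⟨s, hs1, hs2⟩ := hev.exists
    have hsx : s.1 ≤ x := hs2
    have hs0 : 0 ≤ s.1 := hS0 _ s.2
    refine ⟨s.1, s.2, ?_⟩
    rw [Real.dist_eq, sub_zero] at hs1
    have h1 : fp f x = fp f s.1 + fp f (x - s.1) := by
      rw [← fp_add hs0 (sub_nonneg.2 hsx), add_sub_cancel]
    have h2 : f (y - y ⊓ s.1) ≤ fp f (x - s.1) := by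
      refine le_fp (sub_nonneg.2 inf_le_left) ?_
      rw [sub_inf_eq]
      exact sup_le (sub_le_sub_right hy.2 _) (sub_nonneg.2 hsx)
    rw [map_sub] at h2
    have h3 : f (y ⊓ s.1) < ε / 2 := (le_abs_self _).trans_lt hs1
    linarith

lemma fp_atom {a : X} (ha : IsLatticeAtom a) (h : f a = 0) : fp f a = 0 := by
  refine le_antisymm (fp_le ha.1.le fun y hy hya => ?_) (fp_nonneg ha.1.le)
  obtain ⟨c, -, rfl⟩ := ha.2 y hy hya
  rw [map_smul, h, smul_zero]

end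

/-! ### Consequences of order continuity -/

section
variable {φ : X → ℝ}

lemma OCF.zero (h : OCF φ) : φ 0 = 0 := by
  have := h.smul 0 0 le_rfl le_rfl
  rwa [zero_smul, zero_mul] at this

lemma OCF.mono (h : OCF φ) {x y : X} (hx : 0 ≤ x) (hxy : x ≤ y) : φ x ≤ φ y := by
  have h1 := h.add x (y - x) hx (sub_nonneg.2 hxy)
  rw [add_sub_cancel] at h1
  have h2 := h.nonneg _ (sub_nonneg.2 hxy)
  linarith

lemma OCF.sub (h : OCF φ) {x y : X} (hx : 0 ≤ x) (hxy : x ≤ y) : φ (y - x) = φ y - φ x := by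
  have h1 := h.add x (y - x) hx (sub_nonneg.2 hxy)
  rw [add_sub_cancel] at h1
  linarith

lemma OCF.sum (h : OCF φ) {ι : Type*} (s : Finset ι) {a : ι → X} (ha : ∀ i ∈ s, 0 ≤ a i) :
    φ (∑ i ∈ s, a i) = ∑ i ∈ s, φ (a i) := by
  classical
  induction s using Finset.induction_on with
  | empty => simpa using h.zero
  | insert j s hj ih =>
    rw [Finset.sum_insert hj, Finset.sum_insert hj, h.add _ _ (ha j (Finset.mem_insert_self j s))
      (Finset.sum_nonneg fun i hi => ha i (Finset.mem_insert_of_mem hi)),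
      ih fun i hi => ha i (Finset.mem_insert_of_mem hi)]

lemma OCF.abs_sub_le (h : OCF φ) {x y : X} (hx : 0 ≤ x) (hy : 0 ≤ y) :
    |φ x - φ y| ≤ φ |x - y| := by
  rw [abs_le]
  constructor
  · have h1 : y ≤ x + |x - y| := by
      have := neg_le_abs (x - y)
      rw [neg_sub, sub_le_iff_le_add, add_comm] at this
      exact this
    have h2 := h.mono hy h1
    rw [h.add _ _ hx (abs_nonneg _)] at h2
    linarith
  · have h1 : x ≤ y + |x - y| := by
      have := le_abs_self (x - y)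
      rw [sub_le_iff_le_add, add_comm] at this
      exact this
    have h2 := h.mono hx h1
    rw [h.add _ _ hy (abs_nonneg _)] at h2
    linarith

/-- Normality. -/
theorem OCF.exists_lower (h : OCF φ) {S : Set X} (hS : S.Nonempty) (hdir : DirectedOn (· ≥ ·) S)
    (hS0 : ∀ s ∈ S, 0 ≤ s) {c : ℝ} (hc : 0 < c) (hφ : ∀ s ∈ S, c ≤ φ s) :
    ∃ z, 0 ≤ z ∧ (∀ s ∈ S, z ≤ s) ∧ 0 < φ z := by
  by_contra hcon
  push Not at hcon
  have hz0 : ∀ z, 0 ≤ z → (∀ s ∈ S, z ≤ s) → φ z = 0 := fun z h1 h2 =>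
    le_antisymm (hcon z h1 h2) (h.nonneg z h1)
  obtain ⟨s₀, hs₀⟩ := hS
  obtain ⟨d, ⟨s, hs, z, hz, hzS, rfl⟩, hd⟩ := h.oc
    {d | ∃ s ∈ S, ∃ z, 0 ≤ z ∧ (∀ s' ∈ S, z ≤ s') ∧ d = s - z}
    ⟨s₀ - 0, s₀, hs₀, 0, le_rfl, hS0, rfl⟩ (by
      rintro _ ⟨s, hs, z, hz, hzS, rfl⟩ _ ⟨s', hs', z', hz', hzS', rfl⟩
      obtain ⟨t, ht, h1, h2⟩ := hdir s hs s' hs'
      refine ⟨t - (z ⊔ z'), ⟨t, ht, z ⊔ z', le_sup_of_le_left hz, fun r hr =>
        sup_le (hzS r hr) (hzS' r hr), rfl⟩, ?_, ?_⟩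
      · exact sub_le_sub h1 le_sup_left
      · exact sub_le_sub h2 le_sup_right) (by
      rintro _ ⟨s, hs, z, hz, hzS, rfl⟩
      exact sub_nonneg.2 (hzS s hs)) (by
      intro w hw hws
      have h1 : ∀ n : ℕ, ∀ s ∈ S, (n : ℝ) • w ≤ s := by
        intro n
        induction n with
        | zero =>
          intro s hs
          rw [Nat.cast_zero, zero_smul]
          exact hS0 s hs
        | succ n ih =>
          intro s hs
          have h2 := hws (s - (n : ℝ) • w) ⟨s, hs, (n : ℝ) • w,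
            smul_nonneg (Nat.cast_nonneg n) hw, ih, rfl⟩
          rw [Nat.cast_succ, add_smul, one_smul, add_comm, ← le_sub_iff_add_le]
          exact h2
      exact arch hw fun n => h1 n s₀ hs₀) c hc
  rw [h.sub hz (hzS s hs), hz0 z hz hzS, sub_zero] at hd
  exact absurd (hφ s hs) (not_le.2 hd)

end

end Pool.Agent.X171.OC
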