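import Pool.Agent.X171.OC.FBLSpace

/-! The universal property of the free Banach lattice over a set of positive generators.
(Following helper203's hand-in for MP_be51b2.) -/

open Filter Topology

namespace Pool.Agent.X171.OC

open Pool.Agent.X171.BL (BanachLattice IsLatticeHom)

universe v u w

variable {A : Type w} {X : Type v} [NormedAddCommGroup X] [Lattice X] [NormedSpace ℝ X]
  [BanachLattice X] {u : A → X}

/-- the closure of the set of generated pairs -/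
def Gp (u : A → X) : Set (P A × X) := closure {q | Gen u q.1.1 q.2}

lemma Gp_add {a b} (ha : a ∈ Gp u) (hb : b ∈ Gp u) : a + b ∈ Gp u :=
  map_mem_closure₂ continuous_add ha hb fun _ h1 _ h2 => Gen.add h1 h2

lemma Gp_smul (r : ℝ) {a} (ha : a ∈ Gp u) : r • a ∈ Gp u :=
  map_mem_closure (continuous_const_smul r) ha fun _ h1 => Gen.smul r h1

lemma Gp_sup {a b} (ha : a ∈ Gp u) (hb : b ∈ Gp u) :
    (a.1 ⊔ b.1, a.2 ⊔ b.2) ∈ Gp u := by
  have hc : Continuous (Function.uncurry fun a b : P A × X => (a.1 ⊔ b.1, a.2 ⊔ b.2)) :=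
    ((continuous_fst.comp continuous_fst).sup (continuous_fst.comp continuous_snd)).prodMk
      ((continuous_snd.comp continuous_fst).sup (continuous_snd.comp continuous_snd))
  exact map_mem_closure₂ (f := fun a b : P A × X => (a.1 ⊔ b.1, a.2 ⊔ b.2)) hc ha hb
    fun _ h1 _ h2 => Gen.sup h1 h2

lemma Gp_bound (hu : ∀ γ, 0 ≤ u γ) {C : ℝ} (hC : ∀ γ, ‖u γ‖ ≤ C) (hC0 : 0 ≤ C) {a}
    (ha : a ∈ Gp u) : ‖a.2‖ ≤ C * ‖a.1‖ := by
  have hcl : IsClosed {a : P A × X | ‖a.2‖ ≤ C * ‖a.1‖} := isClosed_le (by fun_prop) (by fun_prop)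
  refine closure_minimal (fun q hq => ?_) hcl ha
  show ‖q.2‖ ≤ C * ‖q.1‖
  refine le_of_forall_pos_le_add fun ε hε => ?_
  obtain ⟨c, hc, h1⟩ := exists_of_lt (x := q.1) (r := nrm q.1 + ε / (C + 1)) (by
    have : 0 < ε / (C + 1) := by positivity
    linarith)
  refine (Gen.bound hu hC hC0 hq hc).trans ?_
  rw [norm_def]
  calc C * ‖c‖ ≤ C * (nrm q.1 + ε / (C + 1)) := by gcongr
    _ = C * nrm q.1 + C * (ε / (C + 1)) := by ring
    _ ≤ C * nrm q.1 + ε := by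
        gcongr
        rw [← mul_div_assoc, div_le_iff₀ (by positivity)]
        nlinarith

lemma Gp_unique (hu : ∀ γ, 0 ≤ u γ) {C : ℝ} (hC : ∀ γ, ‖u γ‖ ≤ C) (hC0 : 0 ≤ C) {f x y}
    (h : (f, x) ∈ Gp u) (h' : (f, y) ∈ Gp u) : x = y := by
  have h1 : ‖x - y‖ ≤ C * ‖f - f‖ := by
    have := Gp_bound hu hC hC0 (Gp_add h (Gp_smul (-1) h'))
    simpa [sub_eq_add_neg] using this
  rw [sub_self, norm_zero, mul_zero] at h1
  exact sub_eq_zero.1 (norm_le_zero_iff.1 h1)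

lemma genF_mem {g : K A → ℝ} (h : GenF g) : g ∈ sub A := fun ε hε =>
  ⟨g, 0, h, by rw [sub_self]; exact Dom.zero, by rwa [norm_zero]⟩

lemma dense_gen (f : P A) (ε : ℝ) (hε : 0 < ε) : ∃ g : P A, GenF g.1 ∧ ‖f - g‖ < ε := by
  obtain ⟨g, c, h1, h2, h3⟩ := f.2 ε hε
  exact ⟨⟨g, genF_mem h1⟩, h1, (nrm_le h2).trans_lt h3⟩

lemma Gp_exists (hu : ∀ γ, 0 ≤ u γ) {C : ℝ} (hC : ∀ γ, ‖u γ‖ ≤ C) (hC0 : 0 ≤ C) (f : P A) :
    ∃ x, (f, x) ∈ Gp u := by
  choose g hg hlim using fun n : ℕ => dense_gen f ((1 / 2 : ℝ) ^ n) (by positivity)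
  choose y hy using fun n => (hg n).exists_of (u' := u)
  have hgl : Tendsto g atTop (𝓝 f) := by
    rw [tendsto_iff_norm_sub_tendsto_zero]
    refine squeeze_zero (fun _ => norm_nonneg _) (fun n => ?_)
      (tendsto_pow_atTop_nhds_zero_of_lt_one (r := (1 / 2 : ℝ)) (by norm_num) (by norm_num))
    rw [← norm_neg, neg_sub]
    exact (hlim n).le
  have hyc : CauchySeq y := by
    rw [Metric.cauchySeq_iff']
    intro δ hδ
    obtain ⟨N, hN⟩ := Metric.cauchySeq_iff'.1 hgl.cauchySeq (δ / (C + 1)) (by positivity)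
    refine ⟨N, fun n hn => ?_⟩
    have h1 := hN n hn
    rw [dist_eq_norm] at h1 ⊢
    have h3 : (g n + (-1 : ℝ) • g N, y n + (-1 : ℝ) • y N) ∈ Gp u :=
      subset_closure ((hy n).add ((hy N).smul (-1)))
    have h2 := Gp_bound hu hC hC0 h3
    simp only [neg_one_smul, ← sub_eq_add_neg] at h2
    calc ‖y n - y N‖ ≤ C * ‖g n - g N‖ := h2
      _ ≤ (C + 1) * ‖g n - g N‖ := by gcongr; linarith
      _ < (C + 1) * (δ / (C + 1)) := by gcongr
      _ = δ := by field_simp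
  obtain ⟨x, hx⟩ := cauchySeq_tendsto_of_complete hyc
  exact ⟨x, mem_closure_of_tendsto (hgl.prodMk_nhds hx) (Eventually.of_forall hy)⟩

theorem exists_hom (hu : ∀ γ, 0 ≤ u γ) {C : ℝ} (hC : ∀ γ, ‖u γ‖ ≤ C) (hC0 : 0 ≤ C) :
    ∃ S : P A →L[ℝ] X, IsLatticeHom S ∧ (∀ f, (f, S f) ∈ Gp u) ∧ ‖S‖ ≤ C := by
  choose S hS using Gp_exists (A := A) hu hC hC0
  have hadd : ∀ f g, S (f + g) = S f + S g := fun f g =>
    Gp_unique hu hC hC0 (hS _) (Gp_add (hS f) (hS g))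
  have hsmul : ∀ (r : ℝ) f, S (r • f) = r • S f := fun r f =>
    Gp_unique hu hC hC0 (hS _) (Gp_smul r (hS f))
  have hsup : ∀ f g, S (f ⊔ g) = S f ⊔ S g := fun f g =>
    Gp_unique hu hC hC0 (hS _) (Gp_sup (hS f) (hS g))
  let L : P A →L[ℝ] X := LinearMap.mkContinuous
    { toFun := S, map_add' := hadd, map_smul' := hsmul } C (fun f => Gp_bound hu hC hC0 (hS f))
  have hneg : ∀ f, S (-f) = - S f := fun f => by
    have := hsmul (-1) f
    rwa [neg_one_smul, neg_one_smul] at this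
  refine ⟨L, ⟨hsup, fun f g => ?_⟩, hS, LinearMap.mkContinuous_norm_le _ hC0 _⟩
  change S (f ⊓ g) = S f ⊓ S g
  have e1 : f ⊓ g = -(-f ⊔ -g) := by rw [neg_sup, neg_neg, neg_neg]
  rw [e1, hneg, hsup, hneg, hneg, neg_sup, neg_neg, neg_neg]

/-- compatibility on generated pairs -/
lemma gen_compat {Y : Type*} [NormedAddCommGroup Y] [Lattice Y] [NormedSpace ℝ Y]
    {Q : X →L[ℝ] Y} (hQ : IsLatticeHom Q) {T : P A →L[ℝ] Y} (hT : IsLatticeHom T)
    (h : ∀ a, Q (u a) = T (dl a)) {f : K A → ℝ} {x : X} (hg : Gen u f x) (hf : f ∈ sub A) :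
    Q x = T ⟨f, hf⟩ := by
  induction hg with
  | zero => rw [map_zero]; exact (map_zero T).symm
  | pi a => exact h a
  | add h1 h2 ih1 ih2 =>
    rw [map_add, ih1 (genF_mem h1.genF), ih2 (genF_mem h2.genF), ← map_add]
    rfl
  | smul r h1 ih =>
    rw [map_smul, ih (genF_mem h1.genF), ← map_smul]
    rfl
  | sup h1 h2 ih1 ih2 =>
    rw [hQ.sup, ih1 (genF_mem h1.genF), ih2 (genF_mem h2.genF), ← hT.sup]
    rfl

lemma closure_compat {Y : Type*} [NormedAddCommGroup Y] [Lattice Y] [NormedSpace ℝ Y]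
    {Q : X →L[ℝ] Y} (hQ : IsLatticeHom Q) {T : P A →L[ℝ] Y} (hT : IsLatticeHom T)
    (h : ∀ a, Q (u a) = T (dl a)) {f : P A} {x : X} (hg : (f, x) ∈ Gp u) : Q x = T f := by
  have hcl : IsClosed {a : P A × X | Q a.2 = T a.1} := isClosed_eq (by fun_prop) (by fun_prop)
  refine closure_minimal (fun q hq => ?_) hcl hg
  exact gen_compat hQ hT h hq q.1.2

/-- lattice homomorphisms are determined by their values on the generators -/
lemma hom_ext {T T' : P A →L[ℝ] X} (hT : IsLatticeHom T) (hT' : IsLatticeHom T')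
    (h : ∀ a, T (dl a) = T' (dl a)) : T = T' := by
  have hid : IsLatticeHom (ContinuousLinearMap.id ℝ X) := ⟨fun _ _ => rfl, fun _ _ => rfl⟩
  have h1 : ∀ g : P A, GenF g.1 → T g = T' g := by
    intro g hg
    obtain ⟨y, hy⟩ := hg.exists_of (u' := fun a => T (dl a))
    have h2 := gen_compat hid hT (fun a => rfl) hy g.2
    have h3 := gen_compat hid hT' (fun a => h a) hy g.2
    exact h2.symm.trans h3
  ext f
  have h2 : f ∈ closure {g : P A | GenF g.1} := by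
    rw [Metric.mem_closure_iff]
    intro ε hε
    obtain ⟨g, hg, hlt⟩ := dense_gen f ε hε
    exact ⟨g, hg, by rwa [dist_eq_norm]⟩
  have hcl : IsClosed {g : P A | T g = T' g} := isClosed_eq (by fun_prop) (by fun_prop)
  exact closure_minimal (fun g hg => h1 g hg) hcl h2

lemma dl_nonneg (a : A) : 0 ≤ dl a := fun k => (k a).2.1

lemma hom_nonneg {Z Y : Type*} [NormedAddCommGroup Z] [Lattice Z] [NormedSpace ℝ Z]
    [NormedAddCommGroup Y] [Lattice Y] [NormedSpace ℝ Y] {T : Z →L[ℝ] Y} (hT : IsLatticeHom T)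
    {f : Z} (hf : 0 ≤ f) : 0 ≤ T f := by
  have := hT.sup f 0
  rw [sup_eq_left.2 hf, map_zero] at this
  rw [this]
  exact le_sup_right

lemma hom_abs {Z Y : Type*} [NormedAddCommGroup Z] [Lattice Z] [NormedSpace ℝ Z]
    [NormedAddCommGroup Y] [Lattice Y] [NormedSpace ℝ Y] {T : Z →L[ℝ] Y} (hT : IsLatticeHom T)
    (f : Z) : T |f| = |T f| := by
  change T (f ⊔ -f) = T f ⊔ -T f
  rw [hT.sup, map_neg]

end Pool.Agent.X171.OC
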