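import Pool.Agent.X171.OC.Fun
import Pool.Agent.X171.OC.Bump

/-! Order continuous functionals on projective Banach lattices. -/

open Filter Topology

namespace Pool.Agent.X171.OC

open Pool.Agent.X171.BL (BanachLattice IsLatticeHom)

universe u v w

variable {X : Type u} [NormedAddCommGroup X] [Lattice X] [NormedSpace ℝ X] [BanachLattice X]

lemma abs_smul_of_nonneg {x : X} (hx : 0 ≤ x) (r : ℝ) : |r • x| = |r| • x := by
  rcases le_total 0 r with h0 | h0
  · rw [abs_of_nonneg h0, abs_of_nonneg (smul_nonneg h0 hx)]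
  · rw [abs_of_nonpos h0, ← abs_neg, ← neg_smul, abs_of_nonneg (smul_nonneg (neg_nonneg.2 h0) hx)]

lemma abs_abs_sub_abs (a b : X) : |(|a| - |b|)| ≤ |a - b| := by
  rw [abs_le']
  constructor
  · rw [sub_le_iff_le_add]
    have := abs_add_le (a - b) b
    rwa [sub_add_cancel] at this
  · rw [neg_sub, sub_le_iff_le_add]
    have := abs_add_le (b - a) a
    rwa [sub_add_cancel, ← abs_neg (b - a), neg_sub] at this

lemma abs_bump_sub (x d d' : X) (n : ℕ) :
    |bump x d n - bump x d' n| ≤ (n : ℝ) • |d - d'| := by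
  unfold bump
  refine (abs_sup_sub_sup_le_abs _ _ _).trans ?_
  have h1 : x - (n : ℝ) • d - (x - (n : ℝ) • d') = -((n : ℝ) • (d - d')) := by
    rw [smul_sub]; abel
  rw [h1, abs_neg]
  rw [abs_le']
  constructor
  · exact smul_le_smul_of_nonneg_left (le_abs_self _) (Nat.cast_nonneg n)
  · rw [← smul_neg]
    exact smul_le_smul_of_nonneg_left (neg_le_abs _) (Nat.cast_nonneg n)

/-- the sum of the deviations -/
noncomputable def dev (x : X) (F : Finset (Set.Icc (0 : X) x))
    (t : Set.Icc (0 : X) x → unitInterval) : X :=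
  ∑ y ∈ F, |(y : X) - (t y : ℝ) • x|

lemma dev_nonneg (x : X) (F : Finset (Set.Icc (0 : X) x))
    (t : Set.Icc (0 : X) x → unitInterval) : 0 ≤ dev x F t :=
  Finset.sum_nonneg fun _ _ => abs_nonneg _

lemma dev_sub {x : X} (hx : 0 ≤ x) (F : Finset (Set.Icc (0 : X) x))
    (t t' : Set.Icc (0 : X) x → unitInterval) :
    |dev x F t - dev x F t'| ≤ (∑ y ∈ F, |(t y : ℝ) - t' y|) • x := by
  classical
  induction F using Finset.induction_on with
  | empty => simp [dev]
  | insert y F hy ih =>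
    unfold dev at ih ⊢
    rw [Finset.sum_insert hy, Finset.sum_insert hy, Finset.sum_insert hy, add_smul,
      add_sub_add_comm]
    refine (abs_add_le _ _).trans (add_le_add ?_ ih)
    refine (abs_abs_sub_abs _ _).trans ?_
    have h1 : (y : X) - (t y : ℝ) • x - ((y : X) - (t' y : ℝ) • x) =
        -(((t y : ℝ) - t' y) • x) := by
      rw [sub_smul]; abel
    rw [h1, abs_neg, abs_smul_of_nonneg hx]

variable {φ : X → ℝ}

lemma cont_phi (h : OCF φ) {x : X} (hx : 0 ≤ x) (F : Finset (Set.Icc (0 : X) x)) (n : ℕ) :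
    Continuous fun t : Set.Icc (0 : X) x → unitInterval => φ (bump x (dev x F t) n) := by
  rw [continuous_iff_continuousAt]
  intro t₀
  unfold ContinuousAt
  rw [tendsto_iff_norm_sub_tendsto_zero]
  have hB : Continuous fun t : Set.Icc (0 : X) x → unitInterval =>
      (n : ℝ) * (∑ y ∈ F, |(t y : ℝ) - t₀ y|) * φ x := by fun_prop
  have hB0 : Tendsto (fun t : Set.Icc (0 : X) x → unitInterval =>
      (n : ℝ) * (∑ y ∈ F, |(t y : ℝ) - t₀ y|) * φ x) (𝓝 t₀) (𝓝 0) := by
    have := hB.tendsto t₀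
    simpa using this
  refine squeeze_zero (fun _ => norm_nonneg _) (fun t => ?_) hB0
  rw [Real.norm_eq_abs]
  refine (h.abs_sub_le (bump_nonneg _ _ _) (bump_nonneg _ _ _)).trans ?_
  have h0 : 0 ≤ (n : ℝ) * ∑ y ∈ F, |(t y : ℝ) - t₀ y| := by positivity
  rw [← h.smul _ _ h0 hx]
  refine h.mono (abs_nonneg _) ((abs_bump_sub _ _ _ _).trans ?_)
  rw [mul_smul]
  exact smul_le_smul_of_nonneg_left (dev_sub hx F t t₀) (Nat.cast_nonneg n)

/-- Finitely many elements of `[0, x]` whose joint level sets have small mass. -/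
theorem exists_finset (h : OCF φ) (hat : ∀ a : X, IsLatticeAtom a → φ a = 0) {x : X}
    (hx : 0 ≤ x) {ε : ℝ} (hε : 0 < ε) : ∃ F : Finset (Set.Icc (0 : X) x),
      ∀ t : Set.Icc (0 : X) x → unitInterval, ∃ n : ℕ, φ (bump x (dev x F t) n) < ε := by
  classical
  by_contra hcon
  push Not at hcon
  let C : Finset (Set.Icc (0 : X) x) → Set (Set.Icc (0 : X) x → unitInterval) := fun F =>
    {t | ∀ n : ℕ, ε ≤ φ (bump x (dev x F t) n)}
  have hCne : ∀ F, (C F).Nonempty := fun F => hcon F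
  have hCcl : ∀ F, IsClosed (C F) := by
    intro F
    have : C F = ⋂ n : ℕ, {t | ε ≤ φ (bump x (dev x F t) n)} := by
      ext t
      simp [C]
    rw [this]
    exact isClosed_iInter fun n => isClosed_le continuous_const (cont_phi h hx F n)
  have hdevmono : ∀ (F G : Finset (Set.Icc (0 : X) x)) t, F ⊆ G → dev x F t ≤ dev x G t :=
    fun F G t hFG => Finset.sum_le_sum_of_subset_of_nonneg hFG fun _ _ _ => abs_nonneg _
  have hCanti : Antitone C := by
    intro F G hFG t ht n
    exact (ht n).trans (h.mono (bump_nonneg _ _ _)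
      (bump_mono (dev_nonneg _ _ _) (hdevmono F G t hFG) le_rfl))
  obtain ⟨p, hp⟩ := IsCompact.nonempty_iInter_of_directed_nonempty_isCompact_isClosed C
    hCanti.directed_ge hCne (fun F => (hCcl F).isCompact) hCcl
  rw [Set.mem_iInter] at hp
  obtain ⟨z, hz0, hzS, hz⟩ := h.exists_lower
    (S := {s | ∃ (F : Finset (Set.Icc (0 : X) x)) (n : ℕ), s = bump x (dev x F p) n})
    ⟨_, ∅, 0, rfl⟩ (by
      rintro _ ⟨F, n, rfl⟩ _ ⟨G, m, rfl⟩
      refine ⟨_, ⟨F ∪ G, max n m, rfl⟩, ?_, ?_⟩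
      · exact bump_mono (dev_nonneg _ _ _) (hdevmono _ _ p Finset.subset_union_left)
          (le_max_left _ _)
      · exact bump_mono (dev_nonneg _ _ _) (hdevmono _ _ p Finset.subset_union_right)
          (le_max_right _ _)) (by
      rintro _ ⟨F, n, rfl⟩
      exact bump_nonneg _ _ _) hε (by
      rintro _ ⟨F, n, rfl⟩
      exact hp F n)
  have hzx : z ≤ x := by
    have := hzS _ ⟨∅, 0, rfl⟩
    rwa [bump_zero hx] at this
  -- `z` is disjoint from all deviations
  have hdisj : ∀ y : Set.Icc (0 : X) x, z ⊓ |(y : X) - (p y : ℝ) • x| = 0 := by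
    intro y
    refine eq_zero_of_le_bump (x := x) (d := |(y : X) - (p y : ℝ) • x|) hx
      (le_inf hz0 (abs_nonneg _)) inf_le_right fun n => ?_
    refine inf_le_left.trans ?_
    have := hzS _ ⟨{y}, n, rfl⟩
    simpa [dev] using this
  have hzne : z ≠ 0 := by
    rintro rfl
    rw [h.zero] at hz
    exact lt_irrefl _ hz
  -- `z` is an atom
  have hatom : IsLatticeAtom z := by
    refine ⟨lt_of_le_of_ne hz0 hzne.symm, fun y hy hyz => ?_⟩
    set a : Set.Icc (0 : X) x := ⟨y, hy, hyz.trans hzx⟩ with ha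
    set b : Set.Icc (0 : X) x := ⟨z, hz0, hzx⟩ with hb
    have hb0 : 0 < (p b : ℝ) := by
      rcases eq_or_lt_of_le (p b).2.1 with h0 | h0
      · exfalso
        have h1 := hdisj b
        rw [← h0, zero_smul, sub_zero] at h1
        have h2 : ((b : Set.Icc (0 : X) x) : X) = z := rfl
        rw [h2, abs_of_nonneg hz0, inf_idem] at h1
        exact hzne h1
      · exact h0
    have ha0 : 0 ≤ (p a : ℝ) := (p a).2.1
    have h1 : (p b : ℝ) • y - (p a : ℝ) • z =
        (p b : ℝ) • (y - (p a : ℝ) • x) + (-((p a : ℝ) • (z - (p b : ℝ) • x))) := by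
      rw [smul_sub, smul_sub, smul_smul, smul_smul, mul_comm (p b : ℝ)]
      abel
    have h2 : |(p b : ℝ) • y - (p a : ℝ) • z| ≤
        (p b : ℝ) • |y - (p a : ℝ) • x| + (p a : ℝ) • |z - (p b : ℝ) • x| := by
      rw [h1]
      refine (abs_add_le _ _).trans (add_le_add ?_ ?_)
      · rw [abs_le']
        constructor
        · exact smul_le_smul_of_nonneg_left (le_abs_self _) hb0.le
        · rw [← smul_neg]
          exact smul_le_smul_of_nonneg_left (neg_le_abs _) hb0.le
      · rw [abs_neg, abs_le']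
        constructor
        · exact smul_le_smul_of_nonneg_left (le_abs_self _) ha0
        · rw [← smul_neg]
          exact smul_le_smul_of_nonneg_left (neg_le_abs _) ha0
    have h3 : z ⊓ ((p b : ℝ) • |y - (p a : ℝ) • x| + (p a : ℝ) • |z - (p b : ℝ) • x|) = 0 :=
      disj_add hz0 (smul_nonneg hb0.le (abs_nonneg _)) (smul_nonneg ha0 (abs_nonneg _))
        (disj_smul hz0 (abs_nonneg _) (hdisj a) hb0.le)
        (disj_smul hz0 (abs_nonneg _) (hdisj b) ha0)
    have h4 : z ⊓ |(p b : ℝ) • y - (p a : ℝ) • z| = 0 :=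
      disj_mono hz0 (abs_nonneg _) h3 le_rfl h2
    have h5 : |(p b : ℝ) • y - (p a : ℝ) • z| ≤ ((p b : ℝ) + (p a : ℝ)) • z := by
      rw [sub_eq_add_neg, add_smul]
      refine (abs_add_le _ _).trans (add_le_add ?_ ?_)
      · rw [abs_of_nonneg (smul_nonneg hb0.le hy)]
        exact smul_le_smul_of_nonneg_left hyz hb0.le
      · rw [abs_neg, abs_of_nonneg (smul_nonneg ha0 hz0)]
    have h6 : |(p b : ℝ) • y - (p a : ℝ) • z| ⊓ (((p b : ℝ) + (p a : ℝ)) • z) = 0 :=
      disj_smul (abs_nonneg _) hz0 (by rw [inf_comm]; exact h4) (by positivity)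
    rw [inf_eq_left.2 h5] at h6
    have h7 : (p b : ℝ) • y = (p a : ℝ) • z := by
      have h8 := le_abs_self ((p b : ℝ) • y - (p a : ℝ) • z)
      have h9 := neg_le_abs ((p b : ℝ) • y - (p a : ℝ) • z)
      rw [h6] at h8 h9
      refine le_antisymm (sub_nonpos.1 h8) ?_
      rw [neg_sub] at h9
      exact sub_nonpos.1 h9
    refine ⟨(p b : ℝ)⁻¹ * p a, by positivity, ?_⟩
    rw [mul_smul, ← h7, smul_smul, inv_mul_cancel₀ hb0.ne', one_smul]
  rw [hat z hatom] at hz
  exact lt_irrefl _ hz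

end Pool.Agent.X171.OC
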