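import Pool.Agent.X171.OC.Sec

/-! Order continuous functionals on Banach lattices. -/

open Filter Topology

namespace Pool.Agent.X171.OC

open Pool.Agent.X171.BL (BanachLattice IsLatticeHom)

universe u v w

variable {X : Type u} [NormedAddCommGroup X] [Lattice X] [NormedSpace ℝ X] [BanachLattice X]

/-! ### Lattice preliminaries -/

lemma smul_mono_left {r s : ℝ} (h : r ≤ s) {x : X} (hx : 0 ≤ x) : r • x ≤ s • x := by
  rw [← sub_nonneg, ← sub_smul]
  exact smul_nonneg (sub_nonneg.2 h) hx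

lemma arch {w x : X} (hw : 0 ≤ w) (h : ∀ n : ℕ, (n : ℝ) • w ≤ x) : w = 0 := by
  by_contra hne
  have hpos : 0 < ‖w‖ := norm_pos_iff.2 hne
  obtain ⟨n, hn⟩ := exists_nat_gt (‖x‖ / ‖w‖)
  rw [div_lt_iff₀ hpos] at hn
  have h1 := Pool.Agent.X171.BL.norm_le_of_le (smul_nonneg (Nat.cast_nonneg n) hw) (h n)
  rw [norm_smul, Real.norm_natCast] at h1
  linarith

lemma inf_add_le' {a b c : X} (ha : 0 ≤ a) (hb : 0 ≤ b) (hc : 0 ≤ c) :
    a ⊓ (b + c) ≤ a ⊓ b + a ⊓ c := by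
  rw [add_inf, inf_add, inf_add]
  refine le_inf (le_inf ?_ ?_) (le_inf ?_ inf_le_right)
  · exact inf_le_left.trans (le_add_of_nonneg_right ha)
  · exact inf_le_left.trans (le_add_of_nonneg_left hb)
  · exact inf_le_left.trans (le_add_of_nonneg_right hc)

lemma disj_add {a b c : X} (ha : 0 ≤ a) (hb : 0 ≤ b) (hc : 0 ≤ c) (h1 : a ⊓ b = 0)
    (h2 : a ⊓ c = 0) : a ⊓ (b + c) = 0 := by
  apply le_antisymm
  · have := inf_add_le' ha hb hc
    rwa [h1, h2, add_zero] at this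
  · exact le_inf ha (add_nonneg hb hc)

lemma disj_sum {ι : Type*} {a : X} (ha : 0 ≤ a) {b : ι → X} (s : Finset ι)
    (hb : ∀ i ∈ s, 0 ≤ b i) (h : ∀ i ∈ s, a ⊓ b i = 0) : a ⊓ ∑ i ∈ s, b i = 0 := by
  classical
  induction s using Finset.induction_on with
  | empty => simpa using ha
  | insert j s hj ih =>
    rw [Finset.sum_insert hj]
    refine disj_add ha (hb j (Finset.mem_insert_self j s)) (Finset.sum_nonneg fun i hi =>
      hb i (Finset.mem_insert_of_mem hi)) (h j (Finset.mem_insert_self j s))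
      (ih (fun i hi => hb i (Finset.mem_insert_of_mem hi))
        fun i hi => h i (Finset.mem_insert_of_mem hi))

lemma disj_mono {a b a' b' : X} (ha : 0 ≤ a') (hb : 0 ≤ b') (h : a ⊓ b = 0) (h1 : a' ≤ a)
    (h2 : b' ≤ b) : a' ⊓ b' = 0 :=
  le_antisymm ((inf_le_inf h1 h2).trans_eq h) (le_inf ha hb)

lemma disj_smul {a b : X} (ha : 0 ≤ a) (hb : 0 ≤ b) (h : a ⊓ b = 0) {r : ℝ} (hr : 0 ≤ r) :
    a ⊓ (r • b) = 0 := by
  obtain ⟨n, hn⟩ := exists_nat_ge r
  have h1 : a ⊓ ((n : ℝ) • b) = 0 := by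
    clear hn
    induction n with
    | zero => simpa using ha
    | succ n ih =>
      rw [Nat.cast_succ, add_smul, one_smul]
      exact disj_add ha (smul_nonneg (Nat.cast_nonneg n) hb) hb ih h
  exact disj_mono ha (smul_nonneg hr hb) h1 le_rfl (smul_mono_left hn hb)

lemma pos_inf_neg (c : X) : (c ⊔ 0) ⊓ (-c ⊔ 0) = 0 := posPart_inf_negPart_eq_zero c

lemma sub_inf_eq (a b : X) : a - a ⊓ b = (a - b) ⊔ 0 := by
  rw [_root_.sub_inf, sub_self, sup_comm]

/-- `(x - n d)⁺` -/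
noncomputable def bump (x d : X) (n : ℕ) : X := (x - (n : ℝ) • d) ⊔ 0

lemma bump_nonneg (x d : X) (n : ℕ) : 0 ≤ bump x d n := le_sup_right

lemma bump_mono {x d d' : X} {n n' : ℕ} (hd : 0 ≤ d) (h : d ≤ d') (hn : n ≤ n') :
    bump x d' n' ≤ bump x d n := by
  refine sup_le_sup_right (sub_le_sub_left ?_ x) 0
  exact (smul_mono_left (Nat.cast_le.2 hn) hd).trans
    (smul_le_smul_of_nonneg_left h (Nat.cast_nonneg n'))

lemma bump_le {x d : X} (hx : 0 ≤ x) (hd : 0 ≤ d) (n : ℕ) : bump x d n ≤ x :=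
  sup_le (sub_le_self x (smul_nonneg (Nat.cast_nonneg n) hd)) hx

lemma bump_zero {x d : X} (hx : 0 ≤ x) : bump x d 0 = x := by
  unfold bump
  rw [Nat.cast_zero, zero_smul, sub_zero, sup_eq_left.2 hx]

/-- an element below all bumps is disjoint from `d` -/
lemma eq_zero_of_le_bump {w d x : X} (hx : 0 ≤ x) (hw : 0 ≤ w) (hwd : w ≤ d)
    (h : ∀ n : ℕ, w ≤ bump x d n) : w = 0 := by
  refine arch (x := x) hw fun n => ?_
  have h1 : ((n : ℝ) • w - x) ⊔ 0 ≤ (-(x - (n : ℝ) • d)) ⊔ 0 := by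
    refine sup_le_sup_right ?_ 0
    rw [neg_sub]
    exact sub_le_sub_right (smul_le_smul_of_nonneg_left hwd (Nat.cast_nonneg n)) x
  have h2 : w ⊓ (((n : ℝ) • w - x) ⊔ 0) = 0 :=
    disj_mono hw le_sup_right (pos_inf_neg (x - (n : ℝ) • d)) (h n) h1
  have h3 : ((n : ℝ) • w - x) ⊔ 0 ≤ (n : ℝ) • w :=
    sup_le (sub_le_self _ hx) (smul_nonneg (Nat.cast_nonneg n) hw)
  have h4 : (((n : ℝ) • w - x) ⊔ 0) ⊓ ((n : ℝ) • w) = 0 :=
    disj_smul le_sup_right hw (by rw [inf_comm]; exact h2) (Nat.cast_nonneg n)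
  rw [inf_eq_left.2 h3] at h4
  exact sub_nonpos.1 (le_sup_left.trans h4.le)

/-- bumps at different levels are disjoint -/
lemma disj_bump {x y : X} (hx : 0 ≤ x) {t t' : ℝ} {n : ℕ} (h : 2 ≤ (n : ℝ) * |t - t'|) :
    bump x |y - t • x| n ⊓ bump x |y - t' • x| n = 0 := by
  have h1 : |t - t'| • x ≤ |y - t • x| + |y - t' • x| := by
    have h2 : |(t - t') • x| = |t - t'| • x := by
      rcases le_total 0 (t - t') with h0 | h0
      · rw [abs_of_nonneg h0, abs_of_nonneg (smul_nonneg h0 hx)]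
      · rw [abs_of_nonpos h0, ← abs_neg, ← neg_smul, abs_of_nonneg
          (smul_nonneg (neg_nonneg.2 h0) hx)]
    rw [← h2]
    have h3 : (t - t') • x = (y - t' • x) - (y - t • x) := by rw [sub_smul]; abel
    rw [h3, add_comm, sub_eq_add_neg, ← abs_neg (y - t • x)]
    exact abs_add_le _ _
  have h2 : (2 : ℝ) • x ≤ (n : ℝ) • |y - t • x| + (n : ℝ) • |y - t' • x| := by
    rw [← smul_add]
    refine (smul_mono_left h hx).trans ?_
    rw [mul_smul]
    exact smul_le_smul_of_nonneg_left h1 (Nat.cast_nonneg n)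
  have h3 : x - (n : ℝ) • |y - t' • x| ≤ -(x - (n : ℝ) • |y - t • x|) := by
    rw [two_smul] at h2
    rw [neg_sub, sub_le_iff_le_add, ← sub_nonneg]
    rw [← sub_nonneg] at h2
    convert h2 using 1
    abel
  exact disj_mono (bump_nonneg _ _ _) (bump_nonneg _ _ _)
    (pos_inf_neg (x - (n : ℝ) • |y - t • x|)) le_rfl (sup_le_sup_right h3 0)

/-- disjoint elements below `x` -/
lemma sum_le_of_disj {x : X} (hx : 0 ≤ x) {a : ℕ → X} (h0 : ∀ i, 0 ≤ a i) (h1 : ∀ i, a i ≤ x)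
    (h2 : ∀ i j, i ≠ j → a i ⊓ a j = 0) (M : ℕ) : ∑ i ∈ Finset.range M, a i ≤ x := by
  induction M with
  | zero => simpa using hx
  | succ M ih =>
    rw [Finset.sum_range_succ]
    have h3 : a M ⊓ ∑ i ∈ Finset.range M, a i = 0 :=
      disj_sum (h0 M) _ (fun i _ => h0 i) fun i hi => h2 M i (by
        have := Finset.mem_range.1 hi
        omega)
    have h4 := inf_add_sup (∑ i ∈ Finset.range M, a i) (a M)
    rw [inf_comm, h3, zero_add] at h4
    rw [← h4]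
    exact sup_le ih (h1 M)

/-- truncations of multiples of a thinner bump -/
lemma inf_le_two_bump {x d : X} (hx : 0 ≤ x) (n : ℕ) {N : ℝ} (hN : 0 ≤ N) :
    x ⊓ (N • bump x d (2 * n)) ≤ (2 : ℝ) • bump x d n := by
  set b := x - ((2 * n : ℕ) : ℝ) • d with hb
  have h1 : (2 : ℝ) • bump x d n = (x + b) ⊔ 0 := by
    unfold bump
    rw [Pool.Agent.X171.BL.smul_sup' two_pos, smul_zero, smul_sub, two_smul ℝ x, smul_smul, hb,
      add_sub_assoc]
    push_cast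
    rfl
  rw [h1]
  have hw0 : 0 ≤ x ⊓ (N • (b ⊔ 0)) := le_inf hx (smul_nonneg hN le_sup_right)
  have h2 : (x ⊓ (N • (b ⊔ 0))) ⊓ (-b ⊔ 0) = 0 := by
    refine disj_mono hw0 le_sup_right ?_ inf_le_right le_rfl
    rw [inf_comm]
    exact disj_smul le_sup_right le_sup_right (by rw [inf_comm]; exact pos_inf_neg b) hN
  have h3 : x ⊓ (N • (b ⊔ 0)) = (x ⊓ (N • (b ⊔ 0)) - (-b ⊔ 0)) ⊔ 0 := by
    rw [← sub_inf_eq (x ⊓ (N • (b ⊔ 0))) (-b ⊔ 0), h2, sub_zero]
  show x ⊓ (N • (b ⊔ 0)) ≤ _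
  rw [h3]
  refine sup_le_sup_right ?_ 0
  have h4 : b = (b ⊔ 0) - (-b ⊔ 0) := (posPart_sub_negPart b).symm
  have h5 : x + b = (x + (b ⊔ 0)) - (-b ⊔ 0) := by
    rw [add_sub_assoc, ← h4]
  rw [h5]
  refine sub_le_sub_right ?_ _
  exact inf_le_left.trans (le_add_of_nonneg_right le_sup_right)

end Pool.Agent.X171.OC
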